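import Mathlib

/-!
A quantitative averaging lemma for `U' = α E V`, `V' = γ E⁻¹ U`, `E' = η b E`, `|b|` large.
-/

open Complex Filter Topology Set Metric MeasureTheory

namespace Pool.Agent.N261.HE

/-- Mean value inequality on `[0,T]`. -/
lemma mvt_bound {f f' : ℝ → ℂ} {C T : ℝ} (hf : ∀ x, HasDerivAt f (f' x) x)
    (hb : ∀ x ∈ Icc (0 : ℝ) T, ‖f' x‖ ≤ C) {x : ℝ} (hx : x ∈ Icc (0 : ℝ) T) :
    ‖f x - f 0‖ ≤ C * x := by
  have h := norm_image_sub_le_of_norm_deriv_le_segment' (f := f) (f' := f') (a := 0) (b := T)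
    (C := C) (fun x _ => (hf x).hasDerivWithinAt)
    (fun x hx => hb x (Ico_subset_Icc_self hx)) x hx
  simpa using h

lemma averaging {U V E b : ℝ → ℂ} {α γ η : ℂ} {b' : ℝ → ℂ} {A G M T : ℝ}
    (hη : ‖η‖ = 1) (hα : ‖α‖ ≤ A) (hγ : ‖γ‖ ≤ A) (hA : 0 ≤ A) (hG : 1 ≤ G) (hM : 0 ≤ M)
    (hT : 0 ≤ T)
    (hE : ∀ x, HasDerivAt E (η * b x * E x) x) (hE0 : ∀ x, E x ≠ 0)
    (hb : ∀ x, HasDerivAt b (b' x) x)
    (hU : ∀ x, HasDerivAt U (α * E x * V x) x)
    (hV : ∀ x, HasDerivAt V (γ * (E x)⁻¹ * U x) x)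
    (hEG : ∀ x ∈ Icc (0 : ℝ) T, ‖E x‖ ≤ G) (hEG' : ∀ x ∈ Icc (0 : ℝ) T, ‖(E x)⁻¹‖ ≤ G)
    (hbM : ∀ x, ‖b' x‖ ≤ M) {D : ℝ} (hD : 1 ≤ D) (hbD : ∀ x, D ≤ ‖b x‖)
    (hU0 : U 0 = 0) (hV0 : V 0 = 1) :
    ‖V T - 1‖ ≤ (A * G * T * (2 * A * G * Real.exp (A * G * T) +
      T * (A * Real.exp (A * G * T) * (A + G * M)))) / D := by
  have hD0 : 0 < D := by linarith
  have hη0 : η ≠ 0 := by
    intro h; rw [h, norm_zero] at hη; exact zero_ne_one hη
  have hb0 : ∀ x, b x ≠ 0 := fun x h => by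
    have := hbD x; rw [h, norm_zero] at this; linarith
  set H := Real.exp (A * G * T) with hH
  have hH1 : 1 ≤ H := Real.one_le_exp (by positivity)
  -- a priori bound
  have hUV : ∀ x ∈ Icc (0 : ℝ) T, ‖U x‖ ≤ H ∧ ‖V x‖ ≤ H := by
    intro x hx
    have hcont : ContinuousOn (fun x => (U x, V x)) (Icc 0 T) := fun y _ =>
      ((hU y).continuousAt.prodMk (hV y).continuousAt).continuousWithinAt
    have hder : ∀ y ∈ Ico (0 : ℝ) T, HasDerivWithinAt (fun x => (U x, V x))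
        ((α * E y * V y, γ * (E y)⁻¹ * U y) : ℂ × ℂ) (Ici y) y := fun y _ =>
      ((hU y).prodMk (hV y)).hasDerivWithinAt
    have h0 : ‖((U 0, V 0) : ℂ × ℂ)‖ ≤ 1 := by
      rw [hU0, hV0, Prod.norm_def]; simp
    have hbound : ∀ y ∈ Ico (0 : ℝ) T, ‖((α * E y * V y, γ * (E y)⁻¹ * U y) : ℂ × ℂ)‖
        ≤ (A * G) * ‖((U y, V y) : ℂ × ℂ)‖ + 0 := by
      intro y hy
      have hy' := Ico_subset_Icc_self hy
      rw [add_zero, Prod.norm_def]
      have hn0 : (0 : ℝ) ≤ ‖((U y, V y) : ℂ × ℂ)‖ := norm_nonneg _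
      refine max_le ?_ ?_
      · rw [norm_mul, norm_mul]
        exact mul_le_mul (mul_le_mul hα (hEG y hy') (norm_nonneg _) hA)
          (norm_snd_le ((U y, V y) : ℂ × ℂ)) (norm_nonneg _) (by positivity)
      · rw [norm_mul, norm_mul]
        exact mul_le_mul (mul_le_mul hγ (hEG' y hy') (norm_nonneg _) hA)
          (norm_fst_le ((U y, V y) : ℂ × ℂ)) (norm_nonneg _) (by positivity)
    have := norm_le_gronwallBound_of_norm_deriv_right_le hcont hder h0 hbound x hx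
    rw [gronwallBound_ε0, sub_zero, one_mul] at this
    have h2 : Real.exp (A * G * x) ≤ H := Real.exp_le_exp.2 (by
      have := hx.2
      have h3 : 0 ≤ A * G := by positivity
      nlinarith)
    exact ⟨(norm_fst_le ((U x, V x) : ℂ × ℂ)).trans (this.trans h2),
      (norm_snd_le ((U x, V x) : ℂ × ℂ)).trans (this.trans h2)⟩
  -- the corrector
  set X : ℝ → ℂ := fun x => α * E x * V x / (η * b x) with hX
  have hXd : ∀ x, HasDerivAt (fun x => U x - X x)
      (-(α * γ * U x / (η * b x)) + α * E x * V x * b' x / (η * b x ^ 2)) x := by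
    intro x
    have h1 : HasDerivAt (fun x => α * E x * V x)
        (α * (η * b x * E x) * V x + α * E x * (γ * (E x)⁻¹ * U x)) x :=
      ((hE x).const_mul α).mul (hV x)
    have h2 : HasDerivAt (fun x => η * b x) (η * b' x) x := (hb x).const_mul η
    have h3 := h1.div h2 (mul_ne_zero hη0 (hb0 x))
    have h4 := (hU x).sub h3
    refine h4.congr_deriv ?_
    have e1 := hE0 x
    have e2 := hb0 x
    field_simp
    ring
  have hXb : ∀ x ∈ Icc (0 : ℝ) T, ‖X x‖ ≤ A * G * H / D := by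
    intro x hx
    rw [hX]
    simp only
    rw [norm_div, norm_mul, norm_mul, norm_mul, hη, one_mul]
    apply div_le_div₀ (by positivity) _ hD0 (hbD x)
    exact mul_le_mul (mul_le_mul hα (hEG x hx) (norm_nonneg _) hA) (hUV x hx).2 (norm_nonneg _)
      (by positivity)
  have hUXb : ∀ x ∈ Icc (0 : ℝ) T,
      ‖-(α * γ * U x / (η * b x)) + α * E x * V x * b' x / (η * b x ^ 2)‖
        ≤ (A * H * (A + G * M)) / D := by
    intro x hx
    refine (norm_add_le _ _).trans ?_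
    rw [norm_neg, norm_div, norm_div, norm_mul, norm_mul, norm_mul, norm_mul, norm_mul, norm_mul,
      norm_mul, norm_pow, hη, one_mul, one_mul]
    have e1 : ‖α‖ * ‖γ‖ * ‖U x‖ / ‖b x‖ ≤ (A * A * H) / D := by
      apply div_le_div₀ (by positivity) _ hD0 (hbD x)
      exact mul_le_mul (mul_le_mul hα hγ (norm_nonneg _) hA) (hUV x hx).1 (norm_nonneg _)
        (by positivity)
    have e2 : ‖α‖ * ‖E x‖ * ‖V x‖ * ‖b' x‖ / ‖b x‖ ^ 2 ≤ (A * G * H * M) / D := by
      have hbx := hbD x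
      apply div_le_div₀ (by positivity) _ hD0 _
      · exact mul_le_mul (mul_le_mul (mul_le_mul hα (hEG x hx) (norm_nonneg _) hA) (hUV x hx).2
          (norm_nonneg _) (by positivity)) (hbM x) (norm_nonneg _) (by positivity)
      · nlinarith
    calc _ ≤ (A * A * H) / D + (A * G * H * M) / D := add_le_add e1 e2
      _ = _ := by ring
  have hUb : ∀ x ∈ Icc (0 : ℝ) T, ‖U x‖ ≤ (2 * A * G * H + T * (A * H * (A + G * M))) / D := by
    intro x hx
    have h1 := mvt_bound hXd hUXb hx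
    have h2 := hXb x hx
    have h3 := hXb 0 ⟨le_refl _, hT⟩
    have h4 : U x = (U x - X x - (U 0 - X 0)) + X x - X 0 := by rw [hU0]; ring
    rw [h4]
    have h5 : (A * H * (A + G * M)) / D * x ≤ (A * H * (A + G * M)) / D * T :=
      mul_le_mul_of_nonneg_left hx.2 (by positivity)
    calc ‖(U x - X x - (U 0 - X 0)) + X x - X 0‖
        ≤ ‖U x - X x - (U 0 - X 0)‖ + ‖X x‖ + ‖X 0‖ :=
          (norm_sub_le _ _).trans (add_le_add (norm_add_le _ _) le_rfl)
      _ ≤ (A * H * (A + G * M)) / D * T + A * G * H / D + A * G * H / D := by linarith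
      _ = _ := by ring
  have hVb : ∀ x ∈ Icc (0 : ℝ) T, ‖γ * (E x)⁻¹ * U x‖
      ≤ A * G * ((2 * A * G * H + T * (A * H * (A + G * M))) / D) := by
    intro x hx
    rw [norm_mul, norm_mul]
    exact mul_le_mul (mul_le_mul hγ (hEG' x hx) (norm_nonneg _) hA) (hUb x hx) (norm_nonneg _)
      (by positivity)
  have h := mvt_bound hV hVb (x := T) ⟨hT, le_refl _⟩
  rw [hV0] at h
  refine h.trans (le_of_eq ?_)
  field_simp

end Pool.Agent.N261.HE
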