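import Mathlib

/-!
Definitions: local solutions of the special double confluent Heun equation and solutions on the
universal cover `exp : ℂ → ℂ \ {0}`.
-/

open Complex Filter Topology

namespace Pool.Agent.N261.HE

/-- `E` is a holomorphic solution, on the open set `U`, of
`z² E'' + ((1-l) z + μ (1 - z²)) E' + (λ + μ (l-1) z) E = 0`. -/
def IsLocalSolution (l lam mu : ℂ) (U : Set ℂ) (E : ℂ → ℂ) : Prop :=
  DifferentiableOn ℂ E U ∧ ∀ z ∈ U,
    z ^ 2 * deriv (deriv E) z + ((1 - l) * z + mu * (1 - z ^ 2)) * deriv E z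
      + (lam + mu * (l - 1) * z) * E z = 0

/-- A solution continued analytically along all paths of `ℂ \ {0}`, seen on the universal cover
`t ↦ z = exp t`: a function `y` of `t` which near every `t` has the form `y = E ∘ exp` with a local
holomorphic solution `E` near `z = exp t`. -/
def IsSolution (l lam mu : ℂ) (y : ℂ → ℂ) : Prop :=
  ∀ t : ℂ, ∃ (U : Set ℂ) (E : ℂ → ℂ), IsOpen U ∧ exp t ∈ U ∧ IsLocalSolution l lam mu U E ∧
    ∀ᶠ s in 𝓝 t, y s = E (exp s)

end Pool.Agent.N261.HE
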