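import Pool.Agent.N261.HE.Volt

/-!
Entire solutions of a linear `2 × 2` system `y₁' = a₁ y₁ + a₂ y₂`, `y₂' = a₃ y₁ + a₄ y₂` with
entire coefficients: existence, uniqueness.
-/

open Complex Filter Topology Set Metric MeasureTheory

namespace Pool.Agent.N261.HE

/-- The coefficient `s ↦ t a(t s)` on `[0,1]`. -/
noncomputable def cf (a : ℂ → ℂ) (ha : Continuous a) (t : ℂ) : R where
  toFun s := t * a (t * ((s : ℝ) : ℂ))
  continuous_toFun := by
    have : Continuous fun s : unitInterval => ((s : ℝ) : ℂ) :=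
      Complex.continuous_ofReal.comp continuous_subtype_val
    fun_prop

lemma cf_apply (a : ℂ → ℂ) (ha : Continuous a) (t : ℂ) (s : unitInterval) :
    cf a ha t s = t * a (t * ((s : ℝ) : ℂ)) := rfl

structure Sys where
  a1 : ℂ → ℂ
  a2 : ℂ → ℂ
  a3 : ℂ → ℂ
  a4 : ℂ → ℂ
  h1 : Differentiable ℂ a1
  h2 : Differentiable ℂ a2
  h3 : Differentiable ℂ a3
  h4 : Differentiable ℂ a4

namespace Sys

variable (S : Sys)

noncomputable def co (t : ℂ) : R4 :=
  (cf S.a1 S.h1.continuous t, cf S.a2 S.h2.continuous t, cf S.a3 S.h3.continuous t,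
    cf S.a4 S.h4.continuous t)

noncomputable def Z (c : ℂ × ℂ) (t : ℂ) : E2 := XX J (cst c) (S.co t)

noncomputable def Y1 (c : ℂ × ℂ) (t : ℂ) : ℂ := (S.Z c t).1 1
noncomputable def Y2 (c : ℂ × ℂ) (t : ℂ) : ℂ := (S.Z c t).2 1

lemma Z_eq (c : ℂ × ℂ) (t : ℂ) : S.Z c t = cst c + KK J (S.co t) (S.Z c t) :=
  XX_eq J (cst c) (S.co t) (KK_isUnit _)

lemma Z_fst (c : ℂ × ℂ) (t : ℂ) (s : unitInterval) :
    (S.Z c t).1 s = c.1 + ((s : ℝ) : ℂ) * ∫ u in (0 : ℝ)..1,
      (cf S.a1 S.h1.continuous t (s * pj u) * (S.Z c t).1 (s * pj u) +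
        cf S.a2 S.h2.continuous t (s * pj u) * (S.Z c t).2 (s * pj u)) := by
  conv_lhs => rw [S.Z_eq c t]
  rw [Prod.fst_add, ContinuousMap.add_apply, KK_fst, J_apply]
  rfl

lemma Z_snd (c : ℂ × ℂ) (t : ℂ) (s : unitInterval) :
    (S.Z c t).2 s = c.2 + ((s : ℝ) : ℂ) * ∫ u in (0 : ℝ)..1,
      (cf S.a3 S.h3.continuous t (s * pj u) * (S.Z c t).1 (s * pj u) +
        cf S.a4 S.h4.continuous t (s * pj u) * (S.Z c t).2 (s * pj u)) := by
  conv_lhs => rw [S.Z_eq c t]
  rw [Prod.snd_add, ContinuousMap.add_apply, KK_snd, J_apply]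
  rfl

/-- Rescaling of an element of `C([0,1])`. -/
noncomputable def resc (f : R) (s : unitInterval) : R where
  toFun v := f (s * v)
  continuous_toFun := f.continuous.comp (continuous_const.mul continuous_id)

lemma scaling (c : ℂ × ℂ) (t : ℂ) (s : unitInterval) :
    (resc (S.Z c t).1 s, resc (S.Z c t).2 s) = S.Z c (((s : ℝ) : ℂ) * t) := by
  apply XX_unique J _ _ (KK_isUnit _)
  have hcoef : ∀ (a : ℂ → ℂ) (ha : Continuous a) (v : unitInterval),
      cf a ha (((s : ℝ) : ℂ) * t) v = ((s : ℝ) : ℂ) * cf a ha t (s * v) := by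
    intro a ha v
    rw [cf_apply, cf_apply, Set.Icc.coe_mul]
    push_cast
    ring_nf
  refine Prod.ext ?_ ?_
  · ext v
    rw [Prod.fst_add, ContinuousMap.add_apply, KK_fst, J_apply]
    show (S.Z c t).1 (s * v) = c.1 + _
    rw [S.Z_fst c t (s * v), Set.Icc.coe_mul]
    congr 1
    have : ∀ u : ℝ, (((S.co (((s : ℝ) : ℂ) * t)).1 * (resc (S.Z c t).1 s, resc (S.Z c t).2 s).1 +
        (S.co (((s : ℝ) : ℂ) * t)).2.1 * (resc (S.Z c t).1 s, resc (S.Z c t).2 s).2 : R) (v * pj u))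
        = ((s : ℝ) : ℂ) * (cf S.a1 S.h1.continuous t (s * v * pj u) * (S.Z c t).1 (s * v * pj u) +
        cf S.a2 S.h2.continuous t (s * v * pj u) * (S.Z c t).2 (s * v * pj u)) := by
      intro u
      show cf S.a1 S.h1.continuous (((s : ℝ) : ℂ) * t) (v * pj u) * (S.Z c t).1 (s * (v * pj u)) +
        cf S.a2 S.h2.continuous (((s : ℝ) : ℂ) * t) (v * pj u) * (S.Z c t).2 (s * (v * pj u)) = _
      rw [hcoef, hcoef, ← mul_assoc s v]
      ring
    simp_rw [this]
    rw [intervalIntegral.integral_const_mul]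
    push_cast
    ring
  · ext v
    rw [Prod.snd_add, ContinuousMap.add_apply, KK_snd, J_apply]
    show (S.Z c t).2 (s * v) = c.2 + _
    rw [S.Z_snd c t (s * v), Set.Icc.coe_mul]
    congr 1
    have : ∀ u : ℝ, (((S.co (((s : ℝ) : ℂ) * t)).2.2.1 *
        (resc (S.Z c t).1 s, resc (S.Z c t).2 s).1 +
        (S.co (((s : ℝ) : ℂ) * t)).2.2.2 *
          (resc (S.Z c t).1 s, resc (S.Z c t).2 s).2 : R) (v * pj u))
        = ((s : ℝ) : ℂ) * (cf S.a3 S.h3.continuous t (s * v * pj u) * (S.Z c t).1 (s * v * pj u) +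
        cf S.a4 S.h4.continuous t (s * v * pj u) * (S.Z c t).2 (s * v * pj u)) := by
      intro u
      show cf S.a3 S.h3.continuous (((s : ℝ) : ℂ) * t) (v * pj u) * (S.Z c t).1 (s * (v * pj u)) +
        cf S.a4 S.h4.continuous (((s : ℝ) : ℂ) * t) (v * pj u) * (S.Z c t).2 (s * (v * pj u)) = _
      rw [hcoef, hcoef, ← mul_assoc s v]
      ring
    simp_rw [this]
    rw [intervalIntegral.integral_const_mul]
    push_cast
    ring

lemma Z_fst_eq (c : ℂ × ℂ) (t : ℂ) (s : unitInterval) :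
    (S.Z c t).1 s = S.Y1 c (((s : ℝ) : ℂ) * t) := by
  have h := S.scaling c t s
  have h1 := congrArg (fun W : E2 => W.1 1) h
  simp only at h1
  rw [Y1, ← h1]
  show _ = (S.Z c t).1 (s * 1)
  rw [mul_one]

lemma Z_snd_eq (c : ℂ × ℂ) (t : ℂ) (s : unitInterval) :
    (S.Z c t).2 s = S.Y2 c (((s : ℝ) : ℂ) * t) := by
  have h := S.scaling c t s
  have h1 := congrArg (fun W : E2 => W.2 1) h
  simp only at h1
  rw [Y2, ← h1]
  show _ = (S.Z c t).2 (s * 1)
  rw [mul_one]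

lemma Y1_int (c : ℂ × ℂ) (t : ℂ) :
    S.Y1 c t = c.1 + t * ∫ u in (0 : ℝ)..1,
      (S.a1 (t * u) * S.Y1 c (t * u) + S.a2 (t * u) * S.Y2 c (t * u)) := by
  have h := S.Z_fst c t 1
  rw [Y1, h]
  congr 1
  simp only [Set.Icc.coe_one, Complex.ofReal_one, one_mul]
  rw [← intervalIntegral.integral_const_mul]
  apply intervalIntegral.integral_congr
  intro u hu
  rw [Set.uIcc_of_le zero_le_one] at hu
  simp only
  rw [S.Z_fst_eq, S.Z_snd_eq, cf_apply, cf_apply, pj_val hu, mul_comm ((u : ℝ) : ℂ) t]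
  ring

lemma Y2_int (c : ℂ × ℂ) (t : ℂ) :
    S.Y2 c t = c.2 + t * ∫ u in (0 : ℝ)..1,
      (S.a3 (t * u) * S.Y1 c (t * u) + S.a4 (t * u) * S.Y2 c (t * u)) := by
  have h := S.Z_snd c t 1
  rw [Y2, h]
  congr 1
  simp only [Set.Icc.coe_one, Complex.ofReal_one, one_mul]
  rw [← intervalIntegral.integral_const_mul]
  apply intervalIntegral.integral_congr
  intro u hu
  rw [Set.uIcc_of_le zero_le_one] at hu
  simp only
  rw [S.Z_fst_eq, S.Z_snd_eq, cf_apply, cf_apply, pj_val hu, mul_comm ((u : ℝ) : ℂ) t]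
  ring

end Sys

/-- Fundamental theorem of calculus along a ray. -/
lemma ray_ftc {F G : ℂ → ℂ} (hF : ∀ z, HasDerivAt F (G z) z) (hG : Continuous G) (w : ℂ) :
    F w = F 0 + w * ∫ u in (0 : ℝ)..1, G (w * u) := by
  have h1 : ∀ u ∈ Set.uIcc (0 : ℝ) 1, HasDerivAt (fun u : ℝ => F (w * u)) (w * G (w * u)) u := by
    intro u _
    have h2 : HasDerivAt (fun u : ℝ => w * (u : ℂ)) w u := by
      simpa using (Complex.ofRealCLM.hasDerivAt (x := u)).const_mul w
    have := (hF (w * u)).comp u h2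
    rw [mul_comm] at this
    exact this
  have h3 : IntervalIntegrable (fun u : ℝ => w * G (w * u)) volume 0 1 :=
    (by fun_prop : Continuous fun u : ℝ => w * G (w * u)).intervalIntegrable _ _
  have h4 := intervalIntegral.integral_eq_sub_of_hasDerivAt h1 h3
  rw [intervalIntegral.integral_const_mul] at h4
  simp only [Complex.ofReal_one, mul_one, Complex.ofReal_zero, mul_zero] at h4
  rw [h4]; ring

/-- An entire function `G` has the primitive `t ∫₀¹ G(t u) du`. -/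
lemma ray_prim {G : ℂ → ℂ} (hG : Differentiable ℂ G) (t : ℂ) :
    HasDerivAt (fun t => t * ∫ u in (0 : ℝ)..1, G (t * u)) (G t) t := by
  obtain ⟨F, hF⟩ := hG.isExactOn_univ
  have hF' : ∀ z, HasDerivAt F (G z) z := fun z => hF z (mem_univ z)
  have h : (fun t => t * ∫ u in (0 : ℝ)..1, G (t * u)) = fun t => F t - F 0 := by
    funext t
    rw [ray_ftc hF' hG.continuous t]; ring
  rw [h]
  exact (hF' t).sub_const _

namespace Sys

variable (S : Sys)

lemma Y1_deriv {c : ℂ × ℂ} (hY1 : Differentiable ℂ (S.Y1 c)) (hY2 : Differentiable ℂ (S.Y2 c))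
    (t : ℂ) : HasDerivAt (S.Y1 c) (S.a1 t * S.Y1 c t + S.a2 t * S.Y2 c t) t := by
  have hG : Differentiable ℂ fun t => S.a1 t * S.Y1 c t + S.a2 t * S.Y2 c t :=
    (S.h1.mul hY1).add (S.h2.mul hY2)
  have h := (ray_prim hG t).const_add c.1
  have he : S.Y1 c = fun t => c.1 + t * ∫ u in (0 : ℝ)..1,
      (S.a1 (t * u) * S.Y1 c (t * u) + S.a2 (t * u) * S.Y2 c (t * u)) := by
    funext t; exact S.Y1_int c t
  rw [← he] at h
  exact h

lemma Y2_deriv {c : ℂ × ℂ} (hY1 : Differentiable ℂ (S.Y1 c)) (hY2 : Differentiable ℂ (S.Y2 c))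
    (t : ℂ) : HasDerivAt (S.Y2 c) (S.a3 t * S.Y1 c t + S.a4 t * S.Y2 c t) t := by
  have hG : Differentiable ℂ fun t => S.a3 t * S.Y1 c t + S.a4 t * S.Y2 c t :=
    (S.h3.mul hY1).add (S.h4.mul hY2)
  have h := (ray_prim hG t).const_add c.2
  have he : S.Y2 c = fun t => c.2 + t * ∫ u in (0 : ℝ)..1,
      (S.a3 (t * u) * S.Y1 c (t * u) + S.a4 (t * u) * S.Y2 c (t * u)) := by
    funext t; exact S.Y2_int c t
  rw [← he] at h
  exact h

lemma Y1_zero (c : ℂ × ℂ) : S.Y1 c 0 = c.1 := by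
  rw [S.Y1_int]; simp

lemma Y2_zero (c : ℂ × ℂ) : S.Y2 c 0 = c.2 := by
  rw [S.Y2_int]; simp

/-- Uniqueness of entire solutions with given value at `0`. -/
lemma unique {y1 y2 : ℂ → ℂ}
    (hy1 : ∀ t, HasDerivAt y1 (S.a1 t * y1 t + S.a2 t * y2 t) t)
    (hy2 : ∀ t, HasDerivAt y2 (S.a3 t * y1 t + S.a4 t * y2 t) t) (t : ℂ) :
    y1 t = S.Y1 (y1 0, y2 0) t ∧ y2 t = S.Y2 (y1 0, y2 0) t := by
  have c1 : Continuous y1 := continuous_iff_continuousAt.2 fun t => (hy1 t).continuousAt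
  have c2 : Continuous y2 := continuous_iff_continuousAt.2 fun t => (hy2 t).continuousAt
  have b1 := S.h1.continuous
  have b2 := S.h2.continuous
  have b3 := S.h3.continuous
  have b4 := S.h4.continuous
  have hcs : Continuous fun s : unitInterval => t * ((s : ℝ) : ℂ) :=
    continuous_const.mul (Complex.continuous_ofReal.comp continuous_subtype_val)
  set W1 : R := ⟨fun s => y1 (t * ((s : ℝ) : ℂ)), c1.comp hcs⟩ with hW1
  set W2 : R := ⟨fun s => y2 (t * ((s : ℝ) : ℂ)), c2.comp hcs⟩ with hW2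
  have key : ((W1, W2) : E2) = S.Z (y1 0, y2 0) t := by
    apply XX_unique J _ _ (KK_isUnit _)
    refine Prod.ext ?_ ?_
    · ext s
      rw [Prod.fst_add, ContinuousMap.add_apply, KK_fst, J_apply]
      show y1 (t * ((s : ℝ) : ℂ)) = y1 0 + _
      rw [ray_ftc hy1 (by fun_prop) (t * ((s : ℝ) : ℂ))]
      congr 1
      rw [mul_comm t ((s : ℝ) : ℂ), mul_assoc, ← intervalIntegral.integral_const_mul]
      congr 1
      apply intervalIntegral.integral_congr
      intro u hu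
      rw [Set.uIcc_of_le zero_le_one] at hu
      show t * (S.a1 (((s : ℝ) : ℂ) * t * u) * y1 (((s : ℝ) : ℂ) * t * u) +
        S.a2 (((s : ℝ) : ℂ) * t * u) * y2 (((s : ℝ) : ℂ) * t * u)) =
        (t * S.a1 (t * (((s * pj u : unitInterval) : ℝ) : ℂ))) *
          y1 (t * (((s * pj u : unitInterval) : ℝ) : ℂ)) +
        (t * S.a2 (t * (((s * pj u : unitInterval) : ℝ) : ℂ))) *
          y2 (t * (((s * pj u : unitInterval) : ℝ) : ℂ))
      have : t * (((s * pj u : unitInterval) : ℝ) : ℂ) = ((s : ℝ) : ℂ) * t * u := by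
        rw [Set.Icc.coe_mul, pj_val hu]; push_cast; ring
      rw [this]; ring
    · ext s
      rw [Prod.snd_add, ContinuousMap.add_apply, KK_snd, J_apply]
      show y2 (t * ((s : ℝ) : ℂ)) = y2 0 + _
      rw [ray_ftc hy2 (by fun_prop) (t * ((s : ℝ) : ℂ))]
      congr 1
      rw [mul_comm t ((s : ℝ) : ℂ), mul_assoc, ← intervalIntegral.integral_const_mul]
      congr 1
      apply intervalIntegral.integral_congr
      intro u hu
      rw [Set.uIcc_of_le zero_le_one] at hu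
      show t * (S.a3 (((s : ℝ) : ℂ) * t * u) * y1 (((s : ℝ) : ℂ) * t * u) +
        S.a4 (((s : ℝ) : ℂ) * t * u) * y2 (((s : ℝ) : ℂ) * t * u)) =
        (t * S.a3 (t * (((s * pj u : unitInterval) : ℝ) : ℂ))) *
          y1 (t * (((s * pj u : unitInterval) : ℝ) : ℂ)) +
        (t * S.a4 (t * (((s * pj u : unitInterval) : ℝ) : ℂ))) *
          y2 (t * (((s * pj u : unitInterval) : ℝ) : ℂ))
      have : t * (((s * pj u : unitInterval) : ℝ) : ℂ) = ((s : ℝ) : ℂ) * t * u := by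
        rw [Set.Icc.coe_mul, pj_val hu]; push_cast; ring
      rw [this]; ring
  have k1 : W1 = (S.Z (y1 0, y2 0) t).1 := congrArg Prod.fst key
  have k2 : W2 = (S.Z (y1 0, y2 0) t).2 := congrArg Prod.snd key
  constructor
  · have := congrArg (fun f : R => f 1) k1
    simpa [hW1, Y1] using this
  · have := congrArg (fun f : R => f 1) k2
    simpa [hW2, Y2] using this

end Sys

end Pool.Agent.N261.HE
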