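import Pool.Agent.N261.HE.Heun
import Pool.Agent.N261.HE.Asym

/-!
Floquet solutions, the energy identity, and the asymptotics for large `Re l`.
-/

open Complex Filter Topology Set Metric MeasureTheory

namespace Pool.Agent.N261.HE

variable (p : ℂ × ℂ × ℂ)

lemma two_pi_I_zero_one (c : ℂ × ℂ) :
    (HS p).Y1 c (2 * Real.pi * I) = c.1 * n11 p + c.2 * n12 p ∧
    (HS p).Y2 c (2 * Real.pi * I) = c.1 * n21 p + c.2 * n22 p :=
  Y_lin p c _

/-- Existence of a Floquet solution when `F(p) = 0`. -/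
lemma floquet (hF : FF p = 0) : ∃ (c : ℂ × ℂ) (ρ : ℂ), c ≠ 0 ∧
    ρ ^ 2 = exp (2 * Real.pi * I * p.1) ∧
    ∀ t, (HS p).Y1 c (t + 2 * Real.pi * I) = ρ * (HS p).Y1 c t ∧
      (HS p).Y2 c (t + 2 * Real.pi * I) = ρ * (HS p).Y2 c t := by
  set ρ := (n11 p + n22 p) / 2 with hρ
  have hdet := det_eq p
  have hρ2 : ρ ^ 2 = exp (2 * Real.pi * I * p.1) := by
    have : (n11 p + n22 p) ^ 2 - 4 * exp (2 * Real.pi * I * p.1) = 0 := hF
    rw [hρ]; linear_combination this / 4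
  -- eigenvector
  have hsing : (n11 p - ρ) * (n22 p - ρ) - n12 p * n21 p = 0 := by
    have h1 : (n11 p - ρ) * (n22 p - ρ) - n12 p * n21 p
        = (n11 p * n22 p - n12 p * n21 p) - ρ * (n11 p + n22 p) + ρ ^ 2 := by ring
    rw [h1, hdet, ← hρ2, hρ]; ring
  obtain ⟨c, hc, e1, e2⟩ : ∃ c : ℂ × ℂ, c ≠ 0 ∧ c.1 * n11 p + c.2 * n12 p = ρ * c.1 ∧
      c.1 * n21 p + c.2 * n22 p = ρ * c.2 := by
    by_cases h1 : (n12 p, n11 p - ρ) = ((0, 0) : ℂ × ℂ)
    · have h2 := congrArg Prod.fst h1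
      have h3 := congrArg Prod.snd h1
      simp only at h2 h3
      by_cases h4 : (n22 p - ρ, n21 p) = ((0, 0) : ℂ × ℂ)
      · have h5 := congrArg Prod.fst h4
        have h6 := congrArg Prod.snd h4
        simp only at h5 h6
        refine ⟨(1, 0), by simp, ?_, ?_⟩
        · simp only; linear_combination h3
        · simp only; linear_combination h6
      · refine ⟨(n22 p - ρ, -n21 p), ?_, ?_, ?_⟩
        · intro h5
          apply h4
          have h6 := congrArg Prod.fst h5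
          have h7 := congrArg Prod.snd h5
          simp only [Prod.fst_zero, Prod.snd_zero] at h6 h7
          rw [h6, neg_eq_zero.1 h7]
        · simp only; linear_combination hsing
        · simp only; ring
    · refine ⟨(n12 p, -(n11 p - ρ)), ?_, ?_, ?_⟩
      · intro h5
        apply h1
        have h6 := congrArg Prod.fst h5
        have h7 := congrArg Prod.snd h5
        simp only [Prod.fst_zero, Prod.snd_zero] at h6 h7
        rw [h6, neg_eq_zero.1 h7]
      · simp only; ring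
      · simp only; linear_combination -hsing
  refine ⟨c, ρ, hc, hρ2, ?_⟩
  intro t
  have hp : ∀ t : ℂ, exp (t + 2 * Real.pi * I) = exp t := fun t => by
    rw [exp_add, exp_two_pi_mul_I, mul_one]
  have hp' : ∀ t : ℂ, exp (-(t + 2 * Real.pi * I)) = exp (-t) := fun t => by
    rw [exp_neg, hp, ← exp_neg]
  -- shifted solution
  have s1 := HS_unique p (y1 := fun t => (HS p).Y1 c (t + 2 * Real.pi * I))
    (y2 := fun t => (HS p).Y2 c (t + 2 * Real.pi * I))
    (fun t => by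
      have := (Y1_hd p c (t + 2 * Real.pi * I)).comp_add_const t (2 * Real.pi * I)
      rw [hp] at this
      exact this)
    (fun t => by
      have := (Y2_hd p c (t + 2 * Real.pi * I)).comp_add_const t (2 * Real.pi * I)
      rw [hp'] at this
      exact this) t
  have s2 := HS_unique p (y1 := fun t => ρ * (HS p).Y1 c t) (y2 := fun t => ρ * (HS p).Y2 c t)
    (fun t => by
      refine ((Y1_hd p c t).const_mul ρ).congr_deriv ?_
      ring)
    (fun t => by
      refine ((Y2_hd p c t).const_mul ρ).congr_deriv ?_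
      ring) t
  simp only [zero_add, (HS p).Y1_zero, (HS p).Y2_zero] at s1 s2
  rw [(two_pi_I_zero_one p c).1, (two_pi_I_zero_one p c).2, e1, e2] at s1
  exact ⟨s1.1.trans s2.1.symm, s1.2.trans s2.2.symm⟩

/-- A solution vanishing at a point is zero. -/
lemma vanish {c : ℂ × ℂ} {t : ℂ} (h1 : (HS p).Y1 c t = 0) (h2 : (HS p).Y2 c t = 0) : c = 0 := by
  rw [(Y_lin p c t).1] at h1
  rw [(Y_lin p c t).2] at h2
  have hw := wronskian p t
  have hne : (HS p).Y1 (1, 0) t * (HS p).Y2 (0, 1) t - (HS p).Y1 (0, 1) t * (HS p).Y2 (1, 0) t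
      ≠ 0 := by rw [hw]; exact exp_ne_zero _
  have e1 : c.1 * ((HS p).Y1 (1, 0) t * (HS p).Y2 (0, 1) t -
      (HS p).Y1 (0, 1) t * (HS p).Y2 (1, 0) t) = 0 := by
    linear_combination (HS p).Y2 (0, 1) t * h1 - (HS p).Y1 (0, 1) t * h2
  have e2 : c.2 * ((HS p).Y1 (1, 0) t * (HS p).Y2 (0, 1) t -
      (HS p).Y1 (0, 1) t * (HS p).Y2 (1, 0) t) = 0 := by
    linear_combination -(HS p).Y2 (1, 0) t * h1 + (HS p).Y1 (1, 0) t * h2
  exact Prod.ext ((mul_eq_zero.1 e1).resolve_right hne) ((mul_eq_zero.1 e2).resolve_right hne)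

/-- The gauge exponent `-g(iτ)`, `g(t) = l t/2 + μ cosh t`. -/
noncomputable def gg (τ : ℝ) : ℂ := -(p.1 * (τ * I) / 2 + p.2.2 * Complex.cos τ)

noncomputable def vv (c : ℂ × ℂ) (τ : ℝ) : ℂ := exp (gg p τ) * (HS p).Y1 c (τ * I)
noncomputable def ww (c : ℂ × ℂ) (τ : ℝ) : ℂ := exp (gg p τ) * (HS p).Y2 c (τ * I)

lemma hasDerivAt_ofReal_mul_I (τ : ℝ) : HasDerivAt (fun τ : ℝ => (τ : ℂ) * I) I τ := by
  simpa using (Complex.ofRealCLM.hasDerivAt (x := τ)).mul_const I

lemma gg_hd (τ : ℝ) : HasDerivAt (fun τ : ℝ => exp (gg p τ))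
    (exp (gg p τ) * (-(p.1 * I / 2 - p.2.2 * Complex.sin τ))) τ := by
  have h1 : HasDerivAt (fun τ : ℝ => Complex.cos (τ : ℂ)) (-Complex.sin τ) τ :=
    (Complex.hasDerivAt_cos (τ : ℂ)).comp_ofReal
  have h2 : HasDerivAt (fun τ : ℝ => -(p.1 * (τ * I) / 2 + p.2.2 * Complex.cos τ))
      (-(p.1 * I / 2 + p.2.2 * (-Complex.sin τ))) τ :=
    ((((hasDerivAt_ofReal_mul_I τ).const_mul p.1).div_const 2).add (h1.const_mul p.2.2)).neg
  refine h2.cexp.congr_deriv ?_
  simp only [gg]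
  ring

lemma exp_tI (τ : ℝ) : exp ((τ : ℂ) * I) = Complex.cos τ + Complex.sin τ * I := exp_mul_I _

lemma exp_neg_tI (τ : ℝ) : exp (-((τ : ℂ) * I)) = Complex.cos τ - Complex.sin τ * I := by
  rw [← neg_mul, exp_mul_I, Complex.cos_neg, Complex.sin_neg]; ring

lemma Y1_real (c : ℂ × ℂ) (τ : ℝ) : HasDerivAt (fun τ : ℝ => (HS p).Y1 c (τ * I))
    ((p.2.2 * exp (τ * I) * (HS p).Y1 c (τ * I) + (HS p).Y2 c (τ * I)) * I) τ := by
  have := (Y1_hd p c (τ * I)).comp τ (hasDerivAt_ofReal_mul_I τ)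
  exact this

lemma Y2_real (c : ℂ × ℂ) (τ : ℝ) : HasDerivAt (fun τ : ℝ => (HS p).Y2 c (τ * I))
    ((-(p.2.1 + p.2.2 ^ 2) * (HS p).Y1 c (τ * I)
      + (p.1 - p.2.2 * exp (-(τ * I))) * (HS p).Y2 c (τ * I)) * I) τ := by
  have := (Y2_hd p c (τ * I)).comp τ (hasDerivAt_ofReal_mul_I τ)
  exact this

noncomputable def bb (τ : ℝ) : ℂ := p.1 - 2 * p.2.2 * Complex.cos τ

lemma vv_hd (c : ℂ × ℂ) (τ : ℝ) :
    HasDerivAt (vv p c) (I * ww p c τ - I / 2 * bb p τ * vv p c τ) τ := by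
  refine ((gg_hd p τ).mul (Y1_real p c τ)).congr_deriv ?_
  simp only [vv, ww, bb]
  rw [exp_tI]
  ring_nf
  rw [I_sq]
  ring

lemma ww_hd (c : ℂ × ℂ) (τ : ℝ) :
    HasDerivAt (ww p c) (I / 2 * bb p τ * ww p c τ - I * (p.2.1 + p.2.2 ^ 2) * vv p c τ) τ := by
  refine ((gg_hd p τ).mul (Y2_real p c τ)).congr_deriv ?_
  simp only [vv, ww, bb]
  rw [exp_neg_tI]
  ring_nf
  rw [I_sq]
  ring

lemma energy_hd (c : ℂ × ℂ) (θ : ℝ) (τ : ℝ) :
    HasDerivAt (fun τ => normSq (ww p c τ) - θ * normSq (vv p c τ))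
      (-(bb p τ).im * (normSq (ww p c τ) + θ * normSq (vv p c τ)) +
        2 * (((p.2.1 + p.2.2 ^ 2) - θ) * vv p c τ * (starRingEnd ℂ) (ww p c τ)).im) τ := by
  have hre : ∀ {f : ℝ → ℂ} {f' : ℂ} {x : ℝ}, HasDerivAt f f' x →
      HasDerivAt (fun x => normSq (f x)) (2 * ((f x).re * f'.re + (f x).im * f'.im)) x := by
    intro f f' x hf
    have h1 : HasDerivAt (fun x => (f x).re) f'.re x := by
      have := (Complex.reCLM.hasFDerivAt (x := f x)).comp_hasDerivAt x hf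
      exact this
    have h2 : HasDerivAt (fun x => (f x).im) f'.im x := by
      have := (Complex.imCLM.hasFDerivAt (x := f x)).comp_hasDerivAt x hf
      exact this
    have h3 : (fun x => normSq (f x)) = fun x => (f x).re * (f x).re + (f x).im * (f x).im := by
      funext x; rw [normSq_apply]
    rw [h3]
    refine ((h1.mul h1).add (h2.mul h2)).congr_deriv ?_
    ring
  refine ((hre (ww_hd p c τ)).sub ((hre (vv_hd p c τ)).const_mul θ)).congr_deriv ?_
  simp only [normSq_apply]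
  simp only [Complex.sub_re, Complex.sub_im, Complex.mul_re, Complex.mul_im, Complex.I_re,
    Complex.I_im, Complex.div_ofNat_re, Complex.div_ofNat_im, Complex.conj_re, Complex.conj_im,
    Complex.ofReal_re, Complex.ofReal_im]
  ring

end Pool.Agent.N261.HE
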