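import Pool.Agent.N261.HE.Floq

/-!
Consequences: sign condition excludes Floquet solutions; large `Re l` asymptotics.
-/

open Complex Filter Topology Set Metric MeasureTheory

namespace Pool.Agent.N261.HE

variable (p : ℂ × ℂ × ℂ)

lemma no_floquet {θ : ℝ} (hθ : 0 < θ) {σ : ℝ} (hσ : σ = 1 ∨ σ = -1)
    (h : ∀ τ : ℝ, ‖(p.2.1 + p.2.2 ^ 2) - ((θ ^ 2 : ℝ) : ℂ)‖ < θ * (σ * (bb p τ).im)) :
    FF p ≠ 0 := by
  intro hF
  obtain ⟨c, ρ, hc, hρ, hfl⟩ := floquet p hF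
  set H : ℝ → ℝ := fun τ => normSq (ww p c τ) - (θ ^ 2 : ℝ) * normSq (vv p c τ) with hH
  set H' : ℝ → ℝ := fun τ => -(bb p τ).im * (normSq (ww p c τ) + (θ ^ 2 : ℝ) * normSq (vv p c τ)) +
        2 * (((p.2.1 + p.2.2 ^ 2) - ((θ ^ 2 : ℝ) : ℂ)) * vv p c τ *
          (starRingEnd ℂ) (ww p c τ)).im with hH'
  have hd : ∀ τ, HasDerivAt H (H' τ) τ := fun τ => energy_hd p c (θ ^ 2) τ
  -- periodicity
  have hmod : normSq (exp (gg p (2 * Real.pi)) * ρ) = normSq (exp (gg p 0)) := by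
    have h1 : (exp (gg p (2 * Real.pi)) * ρ) ^ 2 = (exp (gg p 0)) ^ 2 := by
      rw [mul_pow, hρ, ← exp_nat_mul, ← exp_nat_mul, ← exp_add]
      congr 1
      simp only [gg]
      push_cast
      rw [Complex.cos_two_pi, Complex.cos_zero]
      ring
    have h2 : normSq (exp (gg p (2 * Real.pi)) * ρ) ^ 2 = normSq (exp (gg p 0)) ^ 2 := by
      rw [← map_pow, ← map_pow, h1]
    exact (pow_left_inj₀ (normSq_nonneg _) (normSq_nonneg _) two_ne_zero).1 h2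
  have hper : H 0 = H (2 * Real.pi) := by
    have f1 := (hfl 0).1
    have f2 := (hfl 0).2
    rw [zero_add] at f1 f2
    have e1 : normSq (ww p c (2 * Real.pi)) = normSq (ww p c 0) := by
      simp only [ww]
      push_cast
      rw [f2, ← mul_assoc, map_mul, hmod, ← map_mul]
      simp
    have e2 : normSq (vv p c (2 * Real.pi)) = normSq (vv p c 0) := by
      simp only [vv]
      push_cast
      rw [f1, ← mul_assoc, map_mul, hmod, ← map_mul]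
      simp
    rw [hH]
    simp only
    rw [e1, e2]
  obtain ⟨τ, hτ, hz⟩ := exists_hasDerivAt_eq_zero (f := H) (f' := H')
    (by positivity : (0 : ℝ) < 2 * Real.pi)
    (fun x _ => (hd x).continuousAt.continuousWithinAt) hper (fun x _ => hd x)
  set V := vv p c τ with hV
  set W := ww p c τ with hW
  set κ := (p.2.1 + p.2.2 ^ 2) - ((θ ^ 2 : ℝ) : ℂ) with hκ
  have him : |(κ * V * (starRingEnd ℂ) W).im| ≤ ‖κ‖ * ‖V‖ * ‖W‖ := by
    refine (abs_im_le_norm _).trans ?_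
    rw [norm_mul, norm_mul, Complex.norm_conj]
  have hz' : -(bb p τ).im * (normSq W + θ ^ 2 * normSq V) + 2 * (κ * V * (starRingEnd ℂ) W).im = 0 :=
    hz
  rw [normSq_eq_norm_sq, normSq_eq_norm_sq] at hz'
  have hh := h τ
  have hsum : 0 ≤ ‖W‖ ^ 2 + θ ^ 2 * ‖V‖ ^ 2 := by positivity
  have hyoung : θ * (2 * ‖V‖ * ‖W‖) ≤ ‖W‖ ^ 2 + θ ^ 2 * ‖V‖ ^ 2 := by
    nlinarith [sq_nonneg (‖W‖ - θ * ‖V‖)]
  have hσim : σ * (bb p τ).im * (‖W‖ ^ 2 + θ ^ 2 * ‖V‖ ^ 2) ≤ 2 * (‖κ‖ * ‖V‖ * ‖W‖) := by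
    have h1 := abs_le.1 him
    rcases hσ with h2 | h2 <;> rw [h2] <;> nlinarith [h1.1, h1.2]
  have hsum0 : ‖W‖ ^ 2 + θ ^ 2 * ‖V‖ ^ 2 = 0 := by
    by_contra hne
    have hpos : 0 < ‖W‖ ^ 2 + θ ^ 2 * ‖V‖ ^ 2 := lt_of_le_of_ne hsum (Ne.symm hne)
    have h1 : θ * (σ * (bb p τ).im) * (‖W‖ ^ 2 + θ ^ 2 * ‖V‖ ^ 2)
        ≤ ‖κ‖ * (‖W‖ ^ 2 + θ ^ 2 * ‖V‖ ^ 2) := by
      calc θ * (σ * (bb p τ).im) * (‖W‖ ^ 2 + θ ^ 2 * ‖V‖ ^ 2)
          = θ * (σ * (bb p τ).im * (‖W‖ ^ 2 + θ ^ 2 * ‖V‖ ^ 2)) := by ring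
        _ ≤ θ * (2 * (‖κ‖ * ‖V‖ * ‖W‖)) := mul_le_mul_of_nonneg_left hσim hθ.le
        _ = ‖κ‖ * (θ * (2 * ‖V‖ * ‖W‖)) := by ring
        _ ≤ ‖κ‖ * (‖W‖ ^ 2 + θ ^ 2 * ‖V‖ ^ 2) := mul_le_mul_of_nonneg_left hyoung (norm_nonneg _)
    have h2 := le_of_mul_le_mul_right h1 hpos
    linarith
  have hW0 : W = 0 := by
    have : ‖W‖ ^ 2 = 0 := by nlinarith [sq_nonneg ‖W‖, mul_nonneg (sq_nonneg θ) (sq_nonneg ‖V‖)]
    exact norm_eq_zero.1 (pow_eq_zero_iff two_ne_zero |>.1 this)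
  have hV0 : V = 0 := by
    have h1 : θ ^ 2 * ‖V‖ ^ 2 = 0 := by
      nlinarith [sq_nonneg ‖W‖, mul_nonneg (sq_nonneg θ) (sq_nonneg ‖V‖)]
    have h2 : ‖V‖ ^ 2 = 0 := (mul_eq_zero.1 h1).resolve_left (by positivity)
    exact norm_eq_zero.1 (pow_eq_zero_iff two_ne_zero |>.1 h2)
  apply hc
  apply vanish p (t := (τ : ℂ) * I)
  · have : exp (gg p τ) * (HS p).Y1 c (τ * I) = 0 := hV0
    exact (mul_eq_zero.1 this).resolve_left (exp_ne_zero _)
  · have : exp (gg p τ) * (HS p).Y2 c (τ * I) = 0 := hW0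
    exact (mul_eq_zero.1 this).resolve_left (exp_ne_zero _)

/-- Slow variables. -/
noncomputable def PP (c : ℂ × ℂ) (τ : ℝ) : ℂ :=
  exp (-(p.2.2 * (exp (τ * I) - 1))) * (HS p).Y1 c (τ * I)
noncomputable def QQ (c : ℂ × ℂ) (τ : ℝ) : ℂ :=
  exp (-(p.1 * (τ * I) + p.2.2 * (exp (-(τ * I)) - 1))) * (HS p).Y2 c (τ * I)
noncomputable def EE (τ : ℝ) : ℂ := exp (I * (p.1 * τ - 2 * p.2.2 * Complex.sin τ))

lemma EE_hd (τ : ℝ) : HasDerivAt (EE p) (I * bb p τ * EE p τ) τ := by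
  have h1 : HasDerivAt (fun τ : ℝ => Complex.sin (τ : ℂ)) (Complex.cos τ) τ :=
    (Complex.hasDerivAt_sin (τ : ℂ)).comp_ofReal
  have h0 : HasDerivAt (fun τ : ℝ => (τ : ℂ)) 1 τ := by
    have := (Complex.ofRealCLM.hasDerivAt (x := τ))
    rw [Complex.ofRealCLM_apply, Complex.ofReal_one] at this
    exact this
  have h2 : HasDerivAt (fun τ : ℝ => I * (p.1 * τ - 2 * p.2.2 * Complex.sin τ))
      (I * (p.1 * 1 - 2 * p.2.2 * Complex.cos τ)) τ :=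
    ((h0.const_mul p.1).sub (h1.const_mul (2 * p.2.2))).const_mul I
  refine h2.cexp.congr_deriv ?_
  simp only [EE, bb]
  ring

lemma EE_ne (τ : ℝ) : EE p τ ≠ 0 := exp_ne_zero _

lemma EEinv_hd (τ : ℝ) :
    HasDerivAt (fun τ => (EE p τ)⁻¹) (-I * bb p τ * (EE p τ)⁻¹) τ := by
  refine ((EE_hd p τ).inv (EE_ne p τ)).congr_deriv ?_
  have := EE_ne p τ
  field_simp

lemma bb_hd (τ : ℝ) : HasDerivAt (bb p) (2 * p.2.2 * Complex.sin τ) τ := by
  have h1 : HasDerivAt (fun τ : ℝ => Complex.cos (τ : ℂ)) (-Complex.sin τ) τ :=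
    (Complex.hasDerivAt_cos (τ : ℂ)).comp_ofReal
  refine ((h1.const_mul (2 * p.2.2)).const_sub p.1).congr_deriv ?_
  ring

lemma expI_hd (τ : ℝ) : HasDerivAt (fun τ : ℝ => exp ((τ : ℂ) * I)) (exp (τ * I) * I) τ :=
  (hasDerivAt_ofReal_mul_I τ).cexp

lemma expnI_hd (τ : ℝ) :
    HasDerivAt (fun τ : ℝ => exp (-((τ : ℂ) * I))) (exp (-(τ * I)) * (-I)) τ :=
  (hasDerivAt_ofReal_mul_I τ).neg.cexp

lemma EE_split (τ : ℝ) : EE p τ = exp (-(p.2.2 * (exp (τ * I) - 1))) *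
    exp (p.1 * (τ * I) + p.2.2 * (exp (-(τ * I)) - 1)) := by
  rw [EE, ← exp_add]
  congr 1
  rw [exp_tI, exp_neg_tI]
  ring

lemma PP_hd (c : ℂ × ℂ) (τ : ℝ) : HasDerivAt (PP p c) (I * EE p τ * QQ p c τ) τ := by
  have h1 : HasDerivAt (fun τ : ℝ => exp (-(p.2.2 * (exp (τ * I) - 1))))
      (exp (-(p.2.2 * (exp (τ * I) - 1))) * (-(p.2.2 * (exp (τ * I) * I)))) τ :=
    (((expI_hd τ).sub_const 1).const_mul p.2.2).neg.cexp
  refine (h1.mul (Y1_real p c τ)).congr_deriv ?_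
  have h2 : exp (p.1 * (τ * I) + p.2.2 * (exp (-(τ * I)) - 1)) *
      exp (-(p.1 * (τ * I) + p.2.2 * (exp (-(τ * I)) - 1))) = 1 := by
    rw [← exp_add]; simp
  rw [EE_split, QQ]
  linear_combination (-exp (-(p.2.2 * (exp (τ * I) - 1))) * (HS p).Y2 c (τ * I) * I) * h2

lemma QQ_hd (c : ℂ × ℂ) (τ : ℝ) :
    HasDerivAt (QQ p c) (-I * (p.2.1 + p.2.2 ^ 2) * (EE p τ)⁻¹ * PP p c τ) τ := by
  have h1 : HasDerivAt (fun τ : ℝ => exp (-(p.1 * (τ * I) + p.2.2 * (exp (-(τ * I)) - 1))))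
      (exp (-(p.1 * (τ * I) + p.2.2 * (exp (-(τ * I)) - 1))) *
        (-(p.1 * I + p.2.2 * (exp (-(τ * I)) * (-I))))) τ :=
    ((((hasDerivAt_ofReal_mul_I τ).const_mul p.1).add
      (((expnI_hd τ).sub_const 1).const_mul p.2.2))).neg.cexp
  refine (h1.mul (Y2_real p c τ)).congr_deriv ?_
  have h2 : (EE p τ)⁻¹ * exp (-(p.2.2 * (exp (τ * I) - 1))) =
      exp (-(p.1 * (τ * I) + p.2.2 * (exp (-(τ * I)) - 1))) := by
    rw [EE_split, mul_inv, ← exp_neg, ← exp_neg, mul_right_comm, ← exp_add]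
    simp
  rw [PP]
  linear_combination (I * (p.2.1 + p.2.2 ^ 2) * (HS p).Y1 c (τ * I)) * h2

/-- Asymptotics of the trace for large `|Re l|`. -/
lemma trace_asym (B k m : ℝ) (hB : 0 ≤ B) (hk : 0 ≤ k) (hm : 0 ≤ m) :
    ∃ L : ℝ, ∀ p : ℂ × ℂ × ℂ, |p.1.im| ≤ B → ‖p.2.1 + p.2.2 ^ 2‖ ≤ k → ‖p.2.2‖ ≤ m →
      L ≤ |p.1.re| → ‖n11 p + n22 p - (1 + exp (2 * Real.pi * I * p.1))‖ < 1 := by
  set G := Real.exp (2 * Real.pi * B + 2 * m) with hG
  have hG1 : 1 ≤ G := Real.one_le_exp (by positivity)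
  set A := 1 + k with hA
  have hA0 : 0 ≤ A := by positivity
  set C := A * G * (2 * Real.pi) * (2 * A * G * Real.exp (A * G * (2 * Real.pi)) +
      (2 * Real.pi) * (A * Real.exp (A * G * (2 * Real.pi)) * (A + G * (2 * m)))) with hC
  have hC0 : 0 ≤ C := by positivity
  refine ⟨2 * m + 1 + (1 + G) * C, ?_⟩
  intro p hB' hk' hm' hL
  set D := 1 + (1 + G) * C with hD
  have hD1 : 1 ≤ D := by
    have : 0 ≤ (1 + G) * C := by positivity
    linarith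
  have hsin : ∀ τ : ℝ, ‖Complex.sin (τ : ℂ)‖ ≤ 1 := fun τ => by
    rw [← Complex.ofReal_sin, Complex.norm_real]; exact Real.abs_sin_le_one τ
  have hcos : ∀ τ : ℝ, ‖Complex.cos (τ : ℂ)‖ ≤ 1 := fun τ => by
    rw [← Complex.ofReal_cos, Complex.norm_real]; exact Real.abs_cos_le_one τ
  have hbM : ∀ x : ℝ, ‖2 * p.2.2 * Complex.sin (x : ℂ)‖ ≤ 2 * m := by
    intro x
    rw [norm_mul, norm_mul]
    have := hsin x
    simp only [Complex.norm_ofNat]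
    have h2 := norm_nonneg p.2.2
    have h3 := norm_nonneg (Complex.sin (x : ℂ))
    nlinarith
  have hbD : ∀ x : ℝ, D ≤ ‖bb p x‖ := by
    intro x
    have h1 : ‖2 * p.2.2 * Complex.cos (x : ℂ)‖ ≤ 2 * m := by
      rw [norm_mul, norm_mul]
      have := hcos x
      simp only [Complex.norm_ofNat]
      have h2 := norm_nonneg p.2.2
      have h3 := norm_nonneg (Complex.cos (x : ℂ))
      nlinarith
    have h2 := abs_re_le_norm p.1
    have h3 : ‖p.1‖ - ‖2 * p.2.2 * Complex.cos (x : ℂ)‖ ≤ ‖bb p x‖ := norm_sub_norm_le _ _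
    linarith
  have himb : ∀ x ∈ Icc (0 : ℝ) (2 * Real.pi),
      |(p.1 * x - 2 * p.2.2 * Complex.sin x).im| ≤ 2 * Real.pi * B + 2 * m := by
    intro x hx
    rw [Complex.sub_im]
    have h1 : (p.1 * (x : ℂ)).im = p.1.im * x := by simp
    have h2 : |(2 * p.2.2 * Complex.sin (x : ℂ)).im| ≤ 2 * m := (abs_im_le_norm _).trans (hbM x)
    rw [h1]
    refine (abs_sub _ _).trans (add_le_add ?_ h2)
    rw [abs_mul, abs_of_nonneg hx.1]
    have := mul_le_mul hB' hx.2 hx.1 hB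
    linarith
  have hEG : ∀ x ∈ Icc (0 : ℝ) (2 * Real.pi), ‖EE p x‖ ≤ G := by
    intro x hx
    rw [EE, Complex.norm_exp, hG]
    apply Real.exp_le_exp.2
    have h1 := abs_le.1 (himb x hx)
    rw [Complex.I_mul_re]
    linarith [h1.1]
  have hEG' : ∀ x ∈ Icc (0 : ℝ) (2 * Real.pi), ‖(EE p x)⁻¹‖ ≤ G := by
    intro x hx
    rw [EE, ← exp_neg, Complex.norm_exp, hG]
    apply Real.exp_le_exp.2
    have h1 := abs_le.1 (himb x hx)
    rw [Complex.neg_re, Complex.I_mul_re]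
    linarith [h1.2]
  have hκA : ‖-I * (p.2.1 + p.2.2 ^ 2)‖ ≤ A := by
    rw [norm_mul, norm_neg, Complex.norm_I, one_mul]; linarith
  have hIA : ‖I‖ ≤ A := by rw [Complex.norm_I]; linarith
  have hT : (0 : ℝ) ≤ 2 * Real.pi := by positivity
  have e1 : exp (2 * Real.pi * I : ℂ) = 1 := exp_two_pi_mul_I
  have e2 : exp (-(2 * Real.pi * I) : ℂ) = 1 := by rw [exp_neg, e1, inv_one]
  -- first solution
  have r1 := averaging (U := QQ p (1, 0)) (V := PP p (1, 0)) (E := fun τ => (EE p τ)⁻¹)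
    (b := bb p) (α := -I * (p.2.1 + p.2.2 ^ 2)) (γ := I) (η := -I)
    (b' := fun x : ℝ => 2 * p.2.2 * Complex.sin (x : ℂ)) (A := A) (G := G) (M := 2 * m)
    (T := 2 * Real.pi) (by simp) hκA hIA hA0 hG1 (by positivity) hT
    (EEinv_hd p) (fun x => inv_ne_zero (EE_ne p x)) (bb_hd p) (QQ_hd p (1, 0))
    (fun x => by rw [inv_inv]; exact PP_hd p (1, 0) x)
    hEG' (fun x hx => by rw [inv_inv]; exact hEG x hx) hbM hD1 hbD
    (by simp [QQ, (HS p).Y2_zero]) (by simp [PP, (HS p).Y1_zero])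
  have r2 := averaging (U := PP p (0, 1)) (V := QQ p (0, 1)) (E := EE p)
    (b := bb p) (α := I) (γ := -I * (p.2.1 + p.2.2 ^ 2)) (η := I)
    (b' := fun x : ℝ => 2 * p.2.2 * Complex.sin (x : ℂ)) (A := A) (G := G) (M := 2 * m)
    (T := 2 * Real.pi) (by simp) hIA hκA hA0 hG1 (by positivity) hT
    (EE_hd p) (EE_ne p) (bb_hd p) (PP_hd p (0, 1)) (QQ_hd p (0, 1))
    hEG hEG' hbM hD1 hbD
    (by simp [PP, (HS p).Y1_zero]) (by simp [QQ, (HS p).Y2_zero])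
  rw [← hC] at r1 r2
  have p1 : PP p (1, 0) (2 * Real.pi) = n11 p := by
    simp only [PP, n11]
    push_cast
    rw [e1]; simp
  have p2 : exp (2 * Real.pi * I * p.1) * QQ p (0, 1) (2 * Real.pi) = n22 p := by
    simp only [QQ, n22]
    push_cast
    rw [e2, ← mul_assoc, ← exp_add]
    have : (2 * (Real.pi : ℂ) * I * p.1 + -(p.1 * (2 * (Real.pi : ℂ) * I) + p.2.2 * (1 - 1))) = 0 := by
      ring
    rw [this, exp_zero, one_mul]
  have hexp : ‖exp (2 * Real.pi * I * p.1)‖ ≤ G := by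
    rw [Complex.norm_exp, hG]
    apply Real.exp_le_exp.2
    have h1 : (2 * (Real.pi : ℂ) * I * p.1).re = -(2 * Real.pi * p.1.im) := by
      simp
    rw [h1]
    have h2 := (abs_le.1 hB').1
    have h3 := Real.pi_pos
    nlinarith
  have hid : n11 p + n22 p - (1 + exp (2 * Real.pi * I * p.1)) =
      (PP p (1, 0) (2 * Real.pi) - 1) +
        exp (2 * Real.pi * I * p.1) * (QQ p (0, 1) (2 * Real.pi) - 1) := by
    rw [mul_sub, p2, p1]; ring
  rw [hid]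
  refine lt_of_le_of_lt (norm_add_le _ _) ?_
  rw [norm_mul]
  have hCD : C / D * (1 + G) < 1 := by
    rw [div_mul_eq_mul_div, div_lt_one (by linarith)]
    linarith [mul_comm C (1 + G)]
  have h5 : ‖exp (2 * Real.pi * I * p.1)‖ * ‖QQ p (0, 1) (2 * Real.pi) - 1‖ ≤ G * (C / D) :=
    mul_le_mul hexp r2 (norm_nonneg _) (by positivity)
  linarith

/-- No double eigenvalue on the vertical lines `Re l ∈ ℤ + 1/2`, `|Re l|` large. -/
lemma FF_ne_of_half (n : ℤ) (hn : p.1.re = n + 1 / 2)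
    (h : ‖n11 p + n22 p - (1 + exp (2 * Real.pi * I * p.1))‖ < 1) : FF p ≠ 0 := by
  intro hF
  set r := Real.exp (-(Real.pi * p.1.im)) with hr
  have hrpos : 0 < r := Real.exp_pos _
  have hexp : exp (2 * Real.pi * I * p.1) = ((-(r ^ 2) : ℝ) : ℂ) := by
    have h1 : (2 * (Real.pi : ℂ) * I * p.1) =
        ((-(2 * Real.pi * p.1.im) : ℝ) : ℂ) + (n * (2 * Real.pi * I) + Real.pi * I) := by
      have h2 : p.1 = (p.1.re : ℂ) + (p.1.im : ℂ) * I := (Complex.re_add_im p.1).symm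
      rw [hn] at h2
      conv_lhs => rw [h2]
      push_cast
      ring_nf
      rw [I_sq]
      ring
    rw [h1, exp_add, exp_add, exp_int_mul_two_pi_mul_I, exp_pi_mul_I, ← Complex.ofReal_exp]
    rw [hr, ← Real.exp_nat_mul]
    push_cast
    rw [one_mul, mul_neg_one]
    congr 2
    ring
  set T := n11 p + n22 p with hT
  have hT2 : T ^ 2 = ((-(4 * r ^ 2) : ℝ) : ℂ) := by
    have h1 : T ^ 2 - 4 * exp (2 * Real.pi * I * p.1) = 0 := hF
    rw [hexp] at h1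
    push_cast at h1 ⊢
    linear_combination h1
  rw [hexp] at h
  clear_value T
  have hre : T.re ^ 2 - T.im ^ 2 = -(4 * r ^ 2) := by
    have := congrArg Complex.re hT2
    rw [Complex.ofReal_re, sq, Complex.mul_re] at this
    linarith
  have him : T.re * T.im = 0 := by
    have := congrArg Complex.im hT2
    rw [Complex.ofReal_im, sq, Complex.mul_im] at this
    linarith
  have hTre : T.re = 0 := by
    rcases mul_eq_zero.1 him with h1 | h1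
    · exact h1
    · rw [h1] at hre
      nlinarith [sq_nonneg T.re]
  have h1 : ‖T - (1 + ((-(r ^ 2) : ℝ) : ℂ))‖ ^ 2 = (1 + r ^ 2) ^ 2 := by
    rw [← Complex.normSq_eq_norm_sq, normSq_apply]
    have e1 : (T - (1 + ((-(r ^ 2) : ℝ) : ℂ))).re = T.re - (1 - r ^ 2) := by
      rw [Complex.sub_re, Complex.add_re, Complex.ofReal_re, Complex.one_re]; ring
    have e2 : (T - (1 + ((-(r ^ 2) : ℝ) : ℂ))).im = T.im := by
      rw [Complex.sub_im, Complex.add_im, Complex.ofReal_im, Complex.one_im]; ring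
    rw [e1, e2, hTre]
    rw [hTre] at hre
    nlinarith
  have h2 : ‖T - (1 + ((-(r ^ 2) : ℝ) : ℂ))‖ ^ 2 < 1 := by
    have := norm_nonneg (T - (1 + ((-(r ^ 2) : ℝ) : ℂ)))
    nlinarith
  rw [h1] at h2
  nlinarith [sq_nonneg r, sq_nonneg (r ^ 2)]

end Pool.Agent.N261.HE
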