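import Pool.Agent.N261.HE.Local

/-!
Local lemma, second part.
-/

open Complex Filter Topology Set Metric MeasureTheory

namespace Pool.Agent.N261.HE

/-- Partial derivative in the first variable. -/
noncomputable def D1 (f : ℂ × ℂ → ℂ) : ℂ × ℂ → ℂ := fun p => fderiv ℂ f p (1, 0)

lemma D1_analyticAt {f : ℂ × ℂ → ℂ} {p : ℂ × ℂ} (hf : AnalyticAt ℂ f p) :
    AnalyticAt ℂ (D1 f) p := by
  have h := hf.fderiv
  exact ((ContinuousLinearMap.apply ℂ ℂ ((1, 0) : ℂ × ℂ)).analyticAt _).comp h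

lemma hasDerivAt_fst {f : ℂ × ℂ → ℂ} {s l : ℂ} (hf : AnalyticAt ℂ f (s, l)) :
    HasDerivAt (fun s' => f (s', l)) (D1 f (s, l)) s := by
  have h1 : HasFDerivAt f (fderiv ℂ f (s, l)) (s, l) := hf.differentiableAt.hasFDerivAt
  have h2 : HasDerivAt (fun s' : ℂ => ((s', l) : ℂ × ℂ)) ((1, 0) : ℂ × ℂ) s :=
    (hasDerivAt_id s).prodMk (hasDerivAt_const s l)
  exact h1.comp_hasDerivAt s h2

/-- Holomorphic dependence of a circle integral on a parameter. -/
lemma circle_hol {K : ℂ × ℂ → ℂ} {s₀ c : ℂ} {ρ r : ℝ} (hr : 0 < r)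
    (hK : AnalyticOnNhd ℂ K (ball s₀ ρ ×ˢ sphere c r)) :
    DifferentiableOn ℂ (fun s => ∮ l in C(c, r), K (s, l)) (ball s₀ ρ) := by
  intro s₁ hs₁
  obtain ⟨δ, hδ, hδsub⟩ := Metric.nhds_basis_closedBall.mem_iff.1 (isOpen_ball.mem_nhds hs₁)
  have hcomp : IsCompact (closedBall s₁ δ ×ˢ sphere c r) :=
    (isCompact_closedBall _ _).prod (isCompact_sphere _ _)
  have hsub : closedBall s₁ δ ×ˢ sphere c r ⊆ ball s₀ ρ ×ˢ sphere c r :=
    Set.prod_mono hδsub le_rfl
  have hD1c : ContinuousOn (D1 K) (closedBall s₁ δ ×ˢ sphere c r) := fun p hp =>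
    (D1_analyticAt (hK p (hsub hp))).continuousAt.continuousWithinAt
  obtain ⟨M, hM⟩ := hcomp.exists_bound_of_continuousOn hD1c
  have hcm : ∀ θ : ℝ, circleMap c r θ ∈ sphere c r := fun θ => circleMap_mem_sphere c hr.le θ
  have hKc : ∀ s ∈ ball s₀ ρ, Continuous fun θ : ℝ => K (s, circleMap c r θ) := by
    intro s hs
    rw [continuous_iff_continuousAt]
    intro θ
    have h1 : ContinuousAt K (s, circleMap c r θ) := (hK _ ⟨hs, hcm θ⟩).continuousAt
    have h2 : ContinuousAt (fun θ : ℝ => ((s, circleMap c r θ) : ℂ × ℂ)) θ := by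
      have := continuous_circleMap c r
      fun_prop
    exact ContinuousAt.comp (f := fun θ : ℝ => ((s, circleMap c r θ) : ℂ × ℂ)) h1 h2
  have hDc : ∀ s ∈ ball s₀ ρ, Continuous fun θ : ℝ => D1 K (s, circleMap c r θ) := by
    intro s hs
    rw [continuous_iff_continuousAt]
    intro θ
    have h1 : ContinuousAt (D1 K) (s, circleMap c r θ) :=
      (D1_analyticAt (hK _ ⟨hs, hcm θ⟩)).continuousAt
    have h2 : ContinuousAt (fun θ : ℝ => ((s, circleMap c r θ) : ℂ × ℂ)) θ := by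
      have := continuous_circleMap c r
      fun_prop
    exact ContinuousAt.comp (f := fun θ : ℝ => ((s, circleMap c r θ) : ℂ × ℂ)) h1 h2
  have hder : Continuous fun θ : ℝ => deriv (circleMap c r) θ := by
    have : (fun θ : ℝ => deriv (circleMap c r) θ) = fun θ => circleMap 0 r θ * I := by
      funext θ; rw [deriv_circleMap]
    rw [this]
    have := continuous_circleMap 0 r
    fun_prop
  have key := intervalIntegral.hasDerivAt_integral_of_dominated_loc_of_deriv_le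
    (𝕜 := ℂ) (μ := volume) (a := 0) (b := 2 * Real.pi)
    (F := fun s θ => deriv (circleMap c r) θ • K (s, circleMap c r θ))
    (F' := fun s θ => deriv (circleMap c r) θ • D1 K (s, circleMap c r θ))
    (x₀ := s₁) (s := closedBall s₁ δ) (bound := fun θ => r * M)
    (closedBall_mem_nhds _ hδ)
    (by
      filter_upwards [isOpen_ball.mem_nhds hs₁] with s hs
      exact (hder.smul (hKc s hs)).aestronglyMeasurable)
    ((hder.smul (hKc s₁ hs₁)).intervalIntegrable _ _)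
    ((hder.smul (hDc s₁ hs₁)).aestronglyMeasurable)
    (by
      refine Filter.Eventually.of_forall fun θ _ s hs => ?_
      rw [norm_smul]
      have h1 : ‖deriv (circleMap c r) θ‖ = r := by
        rw [deriv_circleMap, norm_mul, Complex.norm_I, mul_one, norm_circleMap_zero,
          abs_of_pos hr]
      rw [h1]
      exact mul_le_mul_of_nonneg_left (hM _ ⟨hs, hcm θ⟩) hr.le)
    (intervalIntegrable_const)
    (by
      refine Filter.Eventually.of_forall fun θ _ s hs => ?_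
      exact (hasDerivAt_fst (hK _ ⟨hδsub hs, hcm θ⟩)).const_mul (deriv (circleMap c r) θ))
  have h2 : HasDerivAt (fun s => ∮ l in C(c, r), K (s, l))
      (∫ θ in (0 : ℝ)..2 * Real.pi, deriv (circleMap c r) θ • D1 K (s₁, circleMap c r θ)) s₁ := by
    simpa only [circleIntegral] using key.2
  exact h2.differentiableAt.differentiableWithinAt

/-- **Local lemma.** -/
theorem local_lemma {f g : ℂ × ℂ → ℂ} {s₀ l₀ : ℂ} (hf : AnalyticAt ℂ f (s₀, l₀))
    (hg : AnalyticAt ℂ g (s₀, l₀)) (hf0 : ¬ ∀ᶠ l in 𝓝 l₀, f (s₀, l) = 0)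
    {W : Set ℂ} (hW : W ∈ 𝓝 l₀)
    (hfreq : ∃ᶠ s in 𝓝[≠] s₀, ∀ l ∈ W, f (s, l) = 0 → g (s, l) = 0) :
    ∀ᶠ p in 𝓝 (s₀, l₀), f p = 0 → g p = 0 := by
  -- the order of `f(s₀,·)`
  have hf1 : AnalyticAt ℂ (fun l => f (s₀, l)) l₀ :=
    hf.comp₂ analyticAt_const analyticAt_id
  set m := analyticOrderNatAt (fun l => f (s₀, l)) l₀ with hm
  have htop : analyticOrderAt (fun l => f (s₀, l)) l₀ ≠ ⊤ := by
    rw [Ne, analyticOrderAt_eq_top]; exact hf0
  have hmo : analyticOrderAt (fun l => f (s₀, l)) l₀ = m := (Nat.cast_analyticOrderNatAt htop).symm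
  have hm1 : iteratedDeriv m (fun l => f (s₀, l)) l₀ ≠ 0 :=
    ((analyticOrderAt_eq_nat_iff_iteratedDeriv_eq_zero hf1).1 hmo).2
  -- open neighbourhood
  have hana : ∀ᶠ p in 𝓝 (s₀, l₀), AnalyticAt ℂ f p ∧ AnalyticAt ℂ g p :=
    hf.eventually_analyticAt.and hg.eventually_analyticAt
  obtain ⟨U, hUsub, hUo, hUmem⟩ := _root_.eventually_nhds_iff.1 hana
  have hfU : AnalyticOnNhd ℂ f U := fun p hp => (hUsub p hp).1
  have hDm : (D2^[m] f) (s₀, l₀) ≠ 0 := by
    rw [← iteratedDeriv_snd hUo hfU m s₀ l₀ hUmem]; exact hm1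
  have hev : ∀ᶠ p in 𝓝 (s₀, l₀), p ∈ U ∧ (D2^[m] f) p ≠ 0 ∧ p.2 ∈ W := by
    have h1 := hUo.mem_nhds hUmem
    have h2 := (iter_analyticAt hf m).continuousAt.eventually_ne hDm
    have h3 : ∀ᶠ p : ℂ × ℂ in 𝓝 (s₀, l₀), p.2 ∈ W := continuousAt_snd.eventually hW
    filter_upwards [h1, h2, h3] with p a b c using ⟨a, b, c⟩
  obtain ⟨ρ₁, hρ₁, hball⟩ := Metric.eventually_nhds_iff_ball.1 hev
  -- isolated zero
  have hiso : ∀ᶠ l in 𝓝[≠] l₀, f (s₀, l) ≠ 0 := by
    rcases hf1.eventually_eq_zero_or_eventually_ne_zero with h | h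
    · exact absurd h hf0
    · exact h
  obtain ⟨ρ₂, hρ₂, hiso'⟩ := Metric.eventually_nhds_iff_ball.1 (eventually_nhdsWithin_iff.1 hiso)
  set r := min ρ₁ ρ₂ / 2 with hr
  have hrpos : 0 < r := by positivity
  have hr1 : r < ρ₁ := by
    have := min_le_left ρ₁ ρ₂; have := lt_min hρ₁ hρ₂; linarith
  have hr2 : r < ρ₂ := by
    have := min_le_right ρ₁ ρ₂; have := lt_min hρ₁ hρ₂; linarith
  have hsph0 : ∀ l ∈ sphere l₀ r, f (s₀, l) ≠ 0 := by
    intro l hl
    rw [mem_sphere] at hl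
    apply hiso' l (by rw [mem_ball, hl]; exact hr2)
    rintro rfl
    rw [dist_self] at hl
    exact hrpos.ne hl
  -- no zeros on the sphere for `s` near `s₀`
  have hsphev : ∀ᶠ s in 𝓝 s₀, ∀ l ∈ sphere l₀ r, f (s, l) ≠ 0 := by
    apply (isCompact_sphere l₀ r).eventually_forall_of_forall_eventually
    intro l hl
    have hmem : (s₀, l) ∈ ball (s₀, l₀) ρ₁ := by
      rw [mem_ball, Prod.dist_eq, dist_self, mem_sphere.1 hl]
      simp [hr1, hρ₁]
    have := (hfU _ (hball _ hmem).1).continuousAt.eventually_ne (hsph0 l hl)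
    exact this
  obtain ⟨ρ₃, hρ₃, hsph⟩ := Metric.eventually_nhds_iff_ball.1 hsphev
  set ρ := min ρ₁ ρ₃ with hρ
  have hρpos : 0 < ρ := lt_min hρ₁ hρ₃
  have hmem : ∀ s ∈ ball s₀ ρ, ∀ l ∈ closedBall l₀ r, (s, l) ∈ ball (s₀, l₀) ρ₁ := by
    intro s hs l hl
    rw [mem_ball, Prod.dist_eq]
    exact max_lt (lt_of_lt_of_le hs (min_le_left _ _)) (lt_of_le_of_lt hl hr1)
  have hfs : ∀ s ∈ ball s₀ ρ, AnalyticOnNhd ℂ (fun l => f (s, l)) (closedBall l₀ r) := by
    intro s hs l hl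
    exact ((hUsub _ (hball _ (hmem s hs l hl)).1).1).comp₂ analyticAt_const analyticAt_id
  have hgs : ∀ s ∈ ball s₀ ρ, AnalyticOnNhd ℂ (fun l => g (s, l)) (closedBall l₀ r) := by
    intro s hs l hl
    exact ((hUsub _ (hball _ (hmem s hs l hl)).1).2).comp₂ analyticAt_const analyticAt_id
  have hord : ∀ s ∈ ball s₀ ρ, ∀ l ∈ closedBall l₀ r,
      analyticOrderAt (fun l => f (s, l)) l ≤ m := by
    intro s hs l hl
    apply order_le (hfs s hs l hl)
    have := hball _ (hmem s hs l hl)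
    rw [iteratedDeriv_snd hUo hfU m s l this.1]
    exact this.2.1
  -- main argument
  have main : ∀ s₁ ∈ ball s₀ ρ, ∀ l₁ ∈ ball l₀ r, f (s₁, l₁) = 0 → g (s₁, l₁) = 0 := by
    intro s₁ hs₁ l₁ hl₁ hfz
    set M : ℂ → ℂ := dslope (fun l => f (s₁, l)) l₁ with hMdef
    have hl₁' : l₁ ∈ closedBall l₀ r := ball_subset_closedBall hl₁
    have hMana : AnalyticOnNhd ℂ M (closedBall l₀ r) := by
      intro l hl
      by_cases h : l = l₁
      · rw [h]
        obtain ⟨q, hq⟩ := hfs s₁ hs₁ l₁ hl₁'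
        exact ⟨_, hq.has_fpower_series_dslope_fslope⟩
      · have h1 : AnalyticAt ℂ (fun l => (l - l₁)⁻¹ * (f (s₁, l) - f (s₁, l₁))) l := by
          have h2 := hfs s₁ hs₁ l hl
          have h3 : AnalyticAt ℂ (fun l : ℂ => (l - l₁)⁻¹) l :=
            (analyticAt_id.sub analyticAt_const).inv (sub_ne_zero.2 h)
          exact h3.mul (h2.sub analyticAt_const)
        refine h1.congr ?_
        filter_upwards [isOpen_ne.mem_nhds h] with x hx
        rw [hMdef, dslope_of_ne _ hx, slope_def_field]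
        field_simp
    have hMval : ∀ l, l ≠ l₁ → M l = f (s₁, l) / (l - l₁) := by
      intro l hl
      rw [hMdef, dslope_of_ne _ hl, slope_def_field, hfz, sub_zero]
    -- the function of `s`
    set K : ℂ × ℂ → ℂ := fun p => g p ^ m * M p.2 / f p with hK
    have hKana : AnalyticOnNhd ℂ K (ball s₀ ρ ×ˢ sphere l₀ r) := by
      rintro ⟨s, l⟩ ⟨hs, hl⟩
      have hl' := sphere_subset_closedBall hl
      have hb := hUsub _ (hball _ (hmem s hs l hl')).1
      have h1 : AnalyticAt ℂ (fun p : ℂ × ℂ => M p.2) (s, l) :=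
        (hMana l hl').fun_comp analyticAt_snd
      have h2 : AnalyticAt ℂ (fun p : ℂ × ℂ => g p ^ m * M p.2) (s, l) := (hb.2.pow m).mul h1
      exact h2.div hb.1 (hsph s (ball_subset_ball (min_le_right _ _) hs) l hl)
    set H : ℂ → ℂ := fun s => ∮ l in C(l₀, r), K (s, l) with hH
    have hHd : DifferentiableOn ℂ H (ball s₀ ρ) := circle_hol hrpos hKana
    have hHa : AnalyticOnNhd ℂ H (ball s₀ ρ) := hHd.analyticOnNhd isOpen_ball
    have hHz : ∃ᶠ s in 𝓝[≠] s₀, H s = 0 := by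
      have hb : ∀ᶠ s in 𝓝[≠] s₀, s ∈ ball s₀ ρ :=
        mem_nhdsWithin_of_mem_nhds (ball_mem_nhds _ hρpos)
      refine (hfreq.and_eventually hb).mono ?_
      rintro s ⟨hs, hsb⟩
      have := circle_zero (f := fun l => f (s, l)) (g := fun l => g (s, l)) (M := M) hrpos
        (hfs s hsb) (hgs s hsb) hMana (hord s hsb)
        (fun z hz hfz => hs z ((hball _ (hmem s hsb z hz)).2.2) hfz)
        (fun z hz => hsph s (ball_subset_ball (min_le_right _ _) hsb) z hz)
      exact this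
    have hHzero : EqOn H 0 (ball s₀ ρ) :=
      hHa.eqOn_zero_of_preconnected_of_frequently_eq_zero (convex_ball _ _).isPreconnected
        (mem_ball_self hρpos) hHz
    have h1 : H s₁ = 0 := hHzero hs₁
    have h2 : H s₁ = ∮ l in C(l₀, r), (l - l₁)⁻¹ • (g (s₁, l) ^ m) := by
      rw [hH]
      apply circleIntegral.integral_congr hrpos.le
      intro l hl
      have hne : l ≠ l₁ := by
        rintro rfl
        exact absurd (mem_sphere.1 hl) (mem_ball.1 hl₁).ne
      have hfne := hsph s₁ (ball_subset_ball (min_le_right _ _) hs₁) l hl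
      simp only [hK, smul_eq_mul]
      rw [hMval l hne]
      field_simp
    rw [h2] at h1
    have hgd : DifferentiableOn ℂ (fun l => g (s₁, l) ^ m) (closedBall l₀ r) := fun l hl =>
      ((hgs s₁ hs₁ l hl).pow m).differentiableAt.differentiableWithinAt
    rw [hgd.circleIntegral_sub_inv_smul hl₁] at h1
    have h3 : g (s₁, l₁) ^ m = 0 := by
      simpa [Real.pi_ne_zero] using h1
    exact eq_zero_of_pow_eq_zero h3 |> fun h => h
  filter_upwards [ball_mem_nhds ((s₀, l₀) : ℂ × ℂ) (lt_min hρpos hrpos)] with p hp hfp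
  rw [mem_ball, Prod.dist_eq, max_lt_iff] at hp
  exact main p.1 (lt_of_lt_of_le hp.1 (min_le_left _ _)) p.2
    (lt_of_lt_of_le hp.2 (min_le_right _ _)) hfp

end Pool.Agent.N261.HE
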