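import Pool.Agent.N261.HE.Floq2
import Pool.Agent.N261.HE.Local2

/-!
The global continuation argument.
-/

open Complex Filter Topology Set Metric MeasureTheory

namespace Pool.Agent.N261.HE

/-- Analytic subset of `ℂ³` (same as the definition in the results file). -/
def IsAnaSub (Z : Set (ℂ × ℂ × ℂ)) : Prop :=
  ∀ a : ℂ × ℂ × ℂ, ∃ U : Set (ℂ × ℂ × ℂ), IsOpen U ∧ a ∈ U ∧
    ∃ (k : ℕ) (g : Fin k → ℂ × ℂ × ℂ → ℂ), (∀ i, AnalyticOnNhd ℂ (g i) U) ∧
      Z ∩ U = {q ∈ U | ∀ i, g i q = 0}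

/-- For real parameters `λ, μ` with `λ+μ²>0`, `F(l,λ,μ)=0` forces `l` real. -/
lemma real_of_real {l : ℂ} {lam mu : ℝ} (h : 0 < lam + mu ^ 2)
    (hF : FF (l, (lam : ℂ), (mu : ℂ)) = 0) : l.im = 0 := by
  by_contra him
  set θ := Real.sqrt (lam + mu ^ 2) with hθ
  have hθpos : 0 < θ := Real.sqrt_pos.2 h
  have hθ2 : θ ^ 2 = lam + mu ^ 2 := Real.sq_sqrt h.le
  have hb : ∀ τ : ℝ, (bb (l, (lam : ℂ), (mu : ℂ)) τ).im = l.im := by
    intro τ
    simp only [bb]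
    have : (2 * (mu : ℂ) * Complex.cos (τ : ℂ)) = ((2 * mu * Real.cos τ : ℝ) : ℂ) := by
      push_cast; ring
    rw [this, Complex.sub_im, Complex.ofReal_im, sub_zero]
  have hnorm : ‖((lam : ℂ) + (mu : ℂ) ^ 2) - ((θ ^ 2 : ℝ) : ℂ)‖ = 0 := by
    rw [hθ2]; push_cast; simp
  rcases lt_or_gt_of_ne him with h1 | h1
  · refine no_floquet (l, (lam : ℂ), (mu : ℂ)) hθpos (σ := -1) (Or.inr rfl) ?_ hF
    intro τ
    rw [hb τ, hnorm]
    nlinarith
  · refine no_floquet (l, (lam : ℂ), (mu : ℂ)) hθpos (σ := 1) (Or.inl rfl) ?_ hF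
    intro τ
    rw [hb τ, hnorm]
    nlinarith

/-- No zeros for large `|Im l|`. -/
lemma FF_ne_of_im {p : ℂ × ℂ × ℂ} {k m : ℝ} (hk : ‖p.2.1 + p.2.2 ^ 2‖ ≤ k) (hm : ‖p.2.2‖ ≤ m)
    (h : k + 1 + 2 * m < |p.1.im|) : FF p ≠ 0 := by
  have hb : ∀ τ : ℝ, |(bb p τ).im - p.1.im| ≤ 2 * m := by
    intro τ
    simp only [bb, Complex.sub_im]
    have h1 : ‖2 * p.2.2 * Complex.cos (τ : ℂ)‖ ≤ 2 * m := by
      rw [norm_mul, norm_mul]
      have h4 : ‖Complex.cos (τ : ℂ)‖ ≤ 1 := by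
        rw [← Complex.ofReal_cos, Complex.norm_real]; exact Real.abs_cos_le_one τ
      simp only [Complex.norm_ofNat]
      have h2 := norm_nonneg p.2.2
      have h3 := norm_nonneg (Complex.cos (τ : ℂ))
      nlinarith
    have h2 := (abs_im_le_norm (2 * p.2.2 * Complex.cos (τ : ℂ))).trans h1
    rw [show p.1.im - (2 * p.2.2 * Complex.cos (τ : ℂ)).im - p.1.im
      = -(2 * p.2.2 * Complex.cos (τ : ℂ)).im by ring, abs_neg]
    exact h2
  have hκ : ‖(p.2.1 + p.2.2 ^ 2) - (((1 : ℝ) ^ 2 : ℝ) : ℂ)‖ ≤ k + 1 := by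
    refine (norm_sub_le _ _).trans ?_
    simp
    exact hk
  rcases le_or_gt 0 p.1.im with h1 | h1
  · rw [abs_of_nonneg h1] at h
    refine no_floquet p one_pos (σ := 1) (Or.inl rfl) ?_
    intro τ
    refine lt_of_le_of_lt hκ ?_
    have := (abs_le.1 (hb τ)).1
    linarith
  · rw [abs_of_neg h1] at h
    refine no_floquet p one_pos (σ := -1) (Or.inr rfl) ?_
    intro τ
    refine lt_of_le_of_lt hκ ?_
    have := (abs_le.1 (hb τ)).2
    linarith

/-- Open sets accumulate at points of their closure. -/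
lemma freq_of_closure {u : Set ℂ} (hu : IsOpen u) {s₀ : ℂ} (h : s₀ ∈ closure u) :
    ∃ᶠ s in 𝓝[≠] s₀, s ∈ u := by
  intro hn
  have h1 : ∀ᶠ s in 𝓝 s₀, s ≠ s₀ → s ∉ u := by
    simpa [eventually_nhdsWithin_iff] using hn
  obtain ⟨V, hV, hVo, hVs⟩ := _root_.eventually_nhds_iff.1 h1
  obtain ⟨x, hxV, hxu⟩ := mem_closure_iff.1 h V hVo hVs
  have hx : x = s₀ := by
    by_contra hne
    exact hV x hxV hne hxu
  rw [hx] at hxu
  have h2 : u ∩ V ∈ 𝓝 s₀ := (hu.inter hVo).mem_nhds ⟨hxu, hVs⟩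
  have h3 : ∀ᶠ s in 𝓝[≠] s₀, s ∈ u ∩ V ∧ s ≠ s₀ := by
    filter_upwards [mem_nhdsWithin_of_mem_nhds h2, self_mem_nhdsWithin] with s a1 a2
      using ⟨a1, a2⟩
  obtain ⟨y, hy, hyne⟩ := h3.exists
  exact hV y hy.2 hyne hy.1

theorem global {Z : Set (ℂ × ℂ × ℂ)} (hZ : IsAnaSub Z)
    (hreal : ∀ l lam mu : ℝ, 0 < lam + mu ^ 2 → FF ((l : ℂ), (lam : ℂ), (mu : ℂ)) = 0 →
      ((l : ℂ), (lam : ℂ), (mu : ℂ)) ∈ Z)
    (q : ℂ × ℂ × ℂ) (hq : FF q = 0) : q ∈ Z := by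
  obtain ⟨l₁, lam₁, mu₁⟩ := q
  set α : ℝ := lam₁.im with hα
  set β : ℝ := 1 - lam₁.re with hβ
  set γ : ℝ := mu₁.im with hγ
  set δ : ℝ := -mu₁.re with hδ
  set lam : ℂ → ℂ := fun s => 1 + α * s + β * s ^ 2 with hlam
  set mu : ℂ → ℂ := fun s => γ * s + δ * s ^ 2 with hmu
  have hlamI : lam I = lam₁ := by
    rw [hlam]; simp only [I_sq, hβ, hα]
    conv_rhs => rw [← Complex.re_add_im lam₁]
    push_cast; ring
  have hmuI : mu I = mu₁ := by
    rw [hmu]; simp only [I_sq, hγ, hδ]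
    conv_rhs => rw [← Complex.re_add_im mu₁]
    push_cast; ring
  set Γ : ℂ × ℂ → ℂ × ℂ × ℂ := fun z => (z.2, lam z.1, mu z.1) with hΓ
  have hΓa : ∀ z, AnalyticAt ℂ Γ z := by
    intro z
    have a1 : AnalyticAt ℂ (fun z : ℂ × ℂ => z.1) z := analyticAt_fst
    have a2 : AnalyticAt ℂ (fun z : ℂ × ℂ => z.2) z := analyticAt_snd
    have b1 : AnalyticAt ℂ (fun z : ℂ × ℂ => lam z.1) z :=
      (analyticAt_const.add (analyticAt_const.mul a1)).add (analyticAt_const.mul (a1.pow 2))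
    have b2 : AnalyticAt ℂ (fun z : ℂ × ℂ => mu z.1) z :=
      (analyticAt_const.mul a1).add (analyticAt_const.mul (a1.pow 2))
    exact a2.prod (b1.prod b2)
  have hΓc : ∀ z, ContinuousAt Γ z := fun z => (hΓa z).continuousAt
  set f : ℂ × ℂ → ℂ := fun z => FF (Γ z) with hf
  have hfa : ∀ z, AnalyticAt ℂ f z := fun z => (FF_analytic (Γ z)).comp (hΓa z)
  -- bounds
  set m : ℝ := 2 * |γ| + 4 * |δ| with hm
  set k : ℝ := (1 + 2 * |α| + 4 * |β|) + m ^ 2 with hk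
  have hm0 : 0 ≤ m := by positivity
  have hk0 : 0 ≤ k := by positivity
  have hmub : ∀ s ∈ ball (0 : ℂ) 2, ‖mu s‖ ≤ m := by
    intro s hs
    rw [mem_ball_zero_iff] at hs
    have h1 : ‖mu s‖ ≤ ‖(γ : ℂ) * s‖ + ‖(δ : ℂ) * s ^ 2‖ := norm_add_le _ _
    rw [norm_mul, norm_mul, norm_pow, Complex.norm_real, Complex.norm_real] at h1
    simp only [Real.norm_eq_abs] at h1
    have h2 := abs_nonneg γ
    have h3 := abs_nonneg δ
    have h4 := norm_nonneg s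
    have h5 : ‖s‖ ^ 2 ≤ 4 := by nlinarith
    nlinarith
  have hkb : ∀ s ∈ ball (0 : ℂ) 2, ‖lam s + mu s ^ 2‖ ≤ k := by
    intro s hs
    have hmus := hmub s hs
    rw [mem_ball_zero_iff] at hs
    have h1 : ‖lam s‖ ≤ ‖(1 : ℂ)‖ + ‖(α : ℂ) * s‖ + ‖(β : ℂ) * s ^ 2‖ :=
      (norm_add_le _ _).trans (add_le_add (norm_add_le _ _) le_rfl)
    rw [norm_one, norm_mul, norm_mul, norm_pow, Complex.norm_real, Complex.norm_real] at h1
    simp only [Real.norm_eq_abs] at h1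
    have h2 := abs_nonneg α
    have h3 := abs_nonneg β
    have h4 := norm_nonneg s
    have h5 : ‖s‖ ^ 2 ≤ 4 := by nlinarith
    have h6 : ‖lam s + mu s ^ 2‖ ≤ ‖lam s‖ + ‖mu s‖ ^ 2 := by
      refine (norm_add_le _ _).trans ?_
      rw [norm_pow]
    have h7 : ‖mu s‖ ^ 2 ≤ m ^ 2 := pow_le_pow_left₀ (norm_nonneg _) hmus 2
    nlinarith
  set B : ℝ := k + 2 + 2 * m + |l₁.im| with hB
  have hB0 : 0 ≤ B := by positivity
  obtain ⟨L, hL⟩ := trace_asym B k m hB0 hk0 hm0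
  obtain ⟨N, hN⟩ := exists_nat_gt (max L |l₁.re|)
  set X : ℝ := N + 1 / 2 with hX
  have hXL : L ≤ X := by
    have := (le_max_left L |l₁.re|).trans hN.le; linarith
  have hXl : |l₁.re| < X := by
    have := lt_of_le_of_lt (le_max_right L |l₁.re|) hN; linarith
  have hX0 : 0 < X := by positivity
  set K : Set ℂ := Icc (-X) X ×ℂ Icc (-B) B with hK
  have hKc : IsCompact K := isCompact_Icc.reProdIm isCompact_Icc
  -- no zeros on the boundary
  have him : ∀ s ∈ ball (0 : ℂ) 2, ∀ l : ℂ, B ≤ |l.im| → f (s, l) ≠ 0 := by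
    intro s hs l hl
    apply FF_ne_of_im (p := Γ (s, l)) (hkb s hs) (hmub s hs)
    show k + 1 + 2 * m < |l.im|
    have := abs_nonneg l₁.im
    linarith
  have hre : ∀ s ∈ ball (0 : ℂ) 2, ∀ l : ℂ, |l.im| ≤ B → |l.re| = X → f (s, l) ≠ 0 := by
    intro s hs l hl hlX
    have htr := hL (Γ (s, l)) hl (hkb s hs) (hmub s hs) (by
      show L ≤ |l.re|
      rw [hlX]; exact hXL)
    rcases (abs_eq hX0.le).1 hlX with h1 | h1
    · exact FF_ne_of_half (Γ (s, l)) N (by show l.re = _; rw [h1]; push_cast; ring) htr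
    · exact FF_ne_of_half (Γ (s, l)) (-N - 1)
        (by show l.re = _; rw [h1, hX]; push_cast; ring) htr
  have hint : ∀ s ∈ ball (0 : ℂ) 2, ∀ l ∈ K, f (s, l) = 0 → K ∈ 𝓝 l := by
    intro s hs l hl hfl
    have h1 : |l.re| ≤ X := abs_le.2 ⟨hl.1.1, hl.1.2⟩
    have h2 : |l.im| ≤ B := abs_le.2 ⟨hl.2.1, hl.2.2⟩
    have h3 : |l.im| < B := lt_of_not_ge fun h => him s hs l h hfl
    have h4 : |l.re| < X := lt_of_le_of_ne h1 fun h => hre s hs l h2 h hfl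
    have h5 := abs_lt.1 h3
    have h6 := abs_lt.1 h4
    have e1 : ∀ᶠ z : ℂ in 𝓝 l, z.re ∈ Icc (-X) X :=
      Complex.continuous_re.continuousAt.eventually (Icc_mem_nhds h6.1 h6.2)
    have e2 : ∀ᶠ z : ℂ in 𝓝 l, z.im ∈ Icc (-B) B :=
      Complex.continuous_im.continuousAt.eventually (Icc_mem_nhds h5.1 h5.2)
    filter_upwards [e1, e2] with z hz1 hz2 using ⟨hz1, hz2⟩
  set S : Set ℂ := {s | ∀ l ∈ K, f (s, l) = 0 → Γ (s, l) ∈ Z} with hS
  -- Claim 1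
  have claim1 : ∀ s₀ ∈ ball (0 : ℂ) 2, (∃ᶠ s in 𝓝[≠] s₀, s ∈ S) → ∀ᶠ s in 𝓝 s₀, s ∈ S := by
    intro s₀ hs₀ hfreq
    apply hKc.eventually_forall_of_forall_eventually (P := fun s l => f (s, l) = 0 → Γ (s, l) ∈ Z)
    intro l₀ hl₀
    by_cases hfz : f (s₀, l₀) = 0
    · have hKn := hint s₀ hs₀ l₀ hl₀ hfz
      obtain ⟨U, hUo, hUm, n, g, hg, hZU⟩ := hZ (Γ (s₀, l₀))
      have hUn : ∀ᶠ z in 𝓝 (s₀, l₀), Γ z ∈ U := (hΓc (s₀, l₀)).eventually (hUo.mem_nhds hUm)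
      rw [nhds_prod_eq, Filter.eventually_prod_iff] at hUn
      obtain ⟨V1, hV1, V2, hV2, hV12⟩ := hUn
      have hgi : ∀ i, ∀ᶠ z in 𝓝 (s₀, l₀), f z = 0 → g i (Γ z) = 0 := by
        intro i
        apply local_lemma (hfa _) ((hg i _ hUm).comp (hΓa _)) _
          (W := {l | V2 l} ∩ K) (Filter.inter_mem hV2 hKn)
        · have hev : ∀ᶠ s in 𝓝[≠] s₀, V1 s := hV1.filter_mono nhdsWithin_le_nhds
          refine (hfreq.and_eventually hev).mono ?_
          rintro s ⟨hsS, hsV⟩ l ⟨hlV, hlK⟩ hfl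
          have h1 : Γ (s, l) ∈ Z := hsS l hlK hfl
          have h2 : Γ (s, l) ∈ U := hV12 hsV hlV
          have h3 : Γ (s, l) ∈ Z ∩ U := ⟨h1, h2⟩
          rw [hZU] at h3
          exact h3.2 i
        · intro hev
          have ha : AnalyticOnNhd ℂ (fun l => f (s₀, l)) univ := fun l _ =>
            (hfa (s₀, l)).comp₂ analyticAt_const analyticAt_id
          have h0 : EqOn (fun l => f (s₀, l)) 0 univ :=
            ha.eqOn_zero_of_preconnected_of_eventuallyEq_zero isPreconnected_univ (mem_univ l₀) hev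
          have h1 := him s₀ hs₀ (B * I) (by simp [abs_of_nonneg hB0])
          exact h1 (h0 (mem_univ _))
      have hall := (Filter.eventually_all.2 hgi)
      have hUn' : ∀ᶠ z in 𝓝 (s₀, l₀), Γ z ∈ U := (hΓc (s₀, l₀)).eventually (hUo.mem_nhds hUm)
      filter_upwards [hall, hUn'] with z hz1 hz2 hfz'
      have h3 : Γ z ∈ {q ∈ U | ∀ i, g i q = 0} := ⟨hz2, fun i => hz1 i hfz'⟩
      rw [← hZU] at h3
      exact h3.1
    · have := (hfa (s₀, l₀)).continuousAt.eventually_ne hfz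
      filter_upwards [this] with z hz hz0 using absurd hz0 hz
  -- real points
  have hstart : ∃ᶠ s in 𝓝[≠] (0 : ℂ), s ∈ S := by
    have hcont : ContinuousAt (fun x : ℝ => (1 + α * x + β * x ^ 2) + (γ * x + δ * x ^ 2) ^ 2) 0 := by
      fun_prop
    have hpos : ∀ᶠ x : ℝ in 𝓝 0, 0 < (1 + α * x + β * x ^ 2) + (γ * x + δ * x ^ 2) ^ 2 := by
      apply hcont.eventually (lt_mem_nhds _)
      simp
    have hS' : ∀ᶠ x : ℝ in 𝓝[≠] 0, (x : ℂ) ∈ S := by
      filter_upwards [hpos.filter_mono nhdsWithin_le_nhds] with x hx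
      intro l _ hfl
      have e1 : lam (x : ℂ) = ((1 + α * x + β * x ^ 2 : ℝ) : ℂ) := by
        rw [hlam]; push_cast; ring
      have e2 : mu (x : ℂ) = ((γ * x + δ * x ^ 2 : ℝ) : ℂ) := by
        rw [hmu]; push_cast; ring
      have hfl' : FF (l, ((1 + α * x + β * x ^ 2 : ℝ) : ℂ), ((γ * x + δ * x ^ 2 : ℝ) : ℂ)) = 0 := by
        rw [← e1, ← e2]; exact hfl
      have him0 := real_of_real hx hfl'
      have hl : l = (l.re : ℂ) := by
        apply Complex.ext <;> simp [him0]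
      show (l, lam (x : ℂ), mu (x : ℂ)) ∈ Z
      rw [e1, e2, hl]
      rw [hl] at hfl'
      exact hreal _ _ _ hx hfl'
    have htend : Tendsto (fun x : ℝ => (x : ℂ)) (𝓝[≠] 0) (𝓝[≠] 0) := by
      apply tendsto_nhdsWithin_of_tendsto_nhds_of_eventually_within
      · have := Complex.continuous_ofReal.tendsto 0
        rw [Complex.ofReal_zero] at this
        exact this.mono_left nhdsWithin_le_nhds
      · filter_upwards [self_mem_nhdsWithin] with x hx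
        exact Complex.ofReal_ne_zero.2 hx
    exact htend.frequently hS'.frequently
  -- connectedness
  have hopen : IsOpen (interior S) := isOpen_interior
  have hsub : ball (0 : ℂ) 2 ⊆ interior S := by
    apply (convex_ball (0 : ℂ) 2).isPreconnected.subset_of_closure_inter_subset hopen
    · refine ⟨0, mem_ball_self (by norm_num), ?_⟩
      exact mem_interior_iff_mem_nhds.2 (claim1 0 (mem_ball_self (by norm_num)) hstart)
    · rintro s ⟨hs1, hs2⟩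
      have h1 := (freq_of_closure hopen hs1).mono fun x hx => interior_subset hx
      exact mem_interior_iff_mem_nhds.2 (claim1 s hs2 h1)
  have hI : I ∈ S := interior_subset (hsub (by
    rw [mem_ball_zero_iff, Complex.norm_I]; norm_num))
  have hl₁K : l₁ ∈ K := by
    have h1 := abs_lt.1 hXl
    have h2 : |l₁.im| ≤ B := by rw [hB]; linarith
    have h3 := abs_le.1 h2
    exact ⟨⟨h1.1.le, h1.2.le⟩, ⟨h3.1, h3.2⟩⟩
  have hfin : Γ (I, l₁) = (l₁, lam₁, mu₁) := by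
    rw [hΓ]; simp only [hlamI, hmuI]
  have := hI l₁ hl₁K (by rw [hf]; simp only; rw [hfin]; exact hq)
  rw [hfin] at this
  exact this

end Pool.Agent.N261.HE
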