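import Pool.Agent.N261.HE.Ent

/-!
The lifted special double confluent Heun system and the analytic dependence of its monodromy on
parameters.
-/

open Complex Filter Topology Set Metric MeasureTheory

namespace Pool.Agent.N261.HE

/-- The system `y' = μ eᵗ y + x`, `x' = -(λ+μ²) y + (l - μ e⁻ᵗ) x`. -/
noncomputable def HS (p : ℂ × ℂ × ℂ) : Sys where
  a1 := fun t => p.2.2 * exp t
  a2 := fun _ => 1
  a3 := fun _ => -(p.2.1 + p.2.2 ^ 2)
  a4 := fun t => p.1 - p.2.2 * exp (-t)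
  h1 := by fun_prop
  h2 := by fun_prop
  h3 := by fun_prop
  h4 := by fun_prop

/-- Inclusion `[0,1] → ℂ`. -/
noncomputable def inc : R where
  toFun s := ((s : ℝ) : ℂ)
  continuous_toFun := Complex.continuous_ofReal.comp continuous_subtype_val

lemma exp_eval (t : ℂ) (s : unitInterval) :
    (NormedSpace.exp (t • inc) : R) s = Complex.exp (t * ((s : ℝ) : ℂ)) := by
  have h := NormedSpace.map_exp (ContinuousMap.evalAlgHom ℂ ℂ s)
    (by exact (ContinuousMap.evalCLM ℂ s).continuous) (t • inc)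
  have h2 : (ContinuousMap.evalAlgHom ℂ ℂ s) (NormedSpace.exp (t • inc))
      = (NormedSpace.exp (t • inc) : R) s := rfl
  rw [h2] at h
  rw [h, ← Complex.exp_eq_exp_ℂ]
  rfl

abbrev PT := (ℂ × ℂ × ℂ) × ℂ

lemma an_t (q : PT) : AnalyticAt ℂ (fun q : PT => q.2) q := analyticAt_snd
lemma an_l (q : PT) : AnalyticAt ℂ (fun q : PT => q.1.1) q :=
  AnalyticAt.fun_comp analyticAt_fst analyticAt_fst
lemma an_lam (q : PT) : AnalyticAt ℂ (fun q : PT => q.1.2.1) q :=
  AnalyticAt.fun_comp analyticAt_fst (AnalyticAt.fun_comp analyticAt_snd analyticAt_fst)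
lemma an_mu (q : PT) : AnalyticAt ℂ (fun q : PT => q.1.2.2) q :=
  AnalyticAt.fun_comp analyticAt_snd (AnalyticAt.fun_comp analyticAt_snd analyticAt_fst)

lemma exp_analytic (σ : ℂ) (q : PT) :
    AnalyticAt ℂ (fun q : PT => (NormedSpace.exp ((σ * q.2) • inc) : R)) q := by
  have h1 : AnalyticAt ℂ (fun q : PT => ((σ * q.2) • inc : R)) q :=
    (analyticAt_const.mul (an_t q)).smul analyticAt_const
  exact (NormedSpace.exp_analytic (𝕂 := ℂ) _).comp h1

lemma co_analytic1 (q : PT) :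
    AnalyticAt ℂ (fun q : PT => cf (HS q.1).a1 (HS q.1).h1.continuous q.2) q := by
  have h : (fun q : PT => cf (HS q.1).a1 (HS q.1).h1.continuous q.2)
      = fun q : PT => (q.2 * q.1.2.2) • (NormedSpace.exp (((1 : ℂ) * q.2) • inc) : R) := by
    funext q
    ext s
    rw [cf_apply, ContinuousMap.smul_apply, exp_eval]
    simp [HS, mul_assoc]
  rw [h]
  have h1 : AnalyticAt ℂ (fun q : PT => q.2 * q.1.2.2) q := (an_t q).mul (an_mu q)
  exact h1.smul (exp_analytic 1 q)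

lemma co_analytic2 (q : PT) :
    AnalyticAt ℂ (fun q : PT => cf (HS q.1).a2 (HS q.1).h2.continuous q.2) q := by
  have h : (fun q : PT => cf (HS q.1).a2 (HS q.1).h2.continuous q.2)
      = fun q : PT => q.2 • (1 : R) := by
    funext q
    ext s
    rw [cf_apply, ContinuousMap.smul_apply]
    simp [HS]
  rw [h]
  exact (an_t q).smul analyticAt_const

lemma co_analytic3 (q : PT) :
    AnalyticAt ℂ (fun q : PT => cf (HS q.1).a3 (HS q.1).h3.continuous q.2) q := by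
  have h : (fun q : PT => cf (HS q.1).a3 (HS q.1).h3.continuous q.2)
      = fun q : PT => (-(q.2 * (q.1.2.1 + q.1.2.2 ^ 2))) • (1 : R) := by
    funext q
    ext s
    rw [cf_apply, ContinuousMap.smul_apply]
    simp [HS]
    ring
  rw [h]
  exact (((an_t q).mul ((an_lam q).add ((an_mu q).pow 2))).neg).smul analyticAt_const

lemma co_analytic4 (q : PT) :
    AnalyticAt ℂ (fun q : PT => cf (HS q.1).a4 (HS q.1).h4.continuous q.2) q := by
  have h : (fun q : PT => cf (HS q.1).a4 (HS q.1).h4.continuous q.2)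
      = fun q : PT => (q.2 * q.1.1) • (1 : R) -
        (q.2 * q.1.2.2) • (NormedSpace.exp (((-1 : ℂ) * q.2) • inc) : R) := by
    funext q
    ext s
    rw [cf_apply, ContinuousMap.sub_apply, ContinuousMap.smul_apply, ContinuousMap.smul_apply,
      exp_eval]
    simp [HS]
    ring
  rw [h]
  have h1 : AnalyticAt ℂ (fun q : PT => q.2 * q.1.2.2) q := (an_t q).mul (an_mu q)
  have h2 : AnalyticAt ℂ (fun q : PT => (q.2 * q.1.1) • (1 : R)) q :=
    ((an_t q).mul (an_l q)).smul analyticAt_const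
  exact h2.sub (h1.smul (exp_analytic (-1) q))

lemma Z_analytic (c : ℂ × ℂ) (q : PT) :
    AnalyticAt ℂ (fun q : PT => (HS q.1).Z c q.2) q :=
  XX_analytic J (cst c) (co_analytic1 q) (co_analytic2 q) (co_analytic3 q) (co_analytic4 q)
    (KK_isUnit _)

lemma Y1_analytic (c : ℂ × ℂ) (q : PT) :
    AnalyticAt ℂ (fun q : PT => (HS q.1).Y1 c q.2) q := by
  have h1 : AnalyticAt ℂ (fun q : PT => ((HS q.1).Z c q.2).1) q :=
    analyticAt_fst.comp (Z_analytic c q)
  exact ((ContinuousMap.evalCLM ℂ (1 : unitInterval) : R →L[ℂ] ℂ).analyticAt _).comp h1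

lemma Y2_analytic (c : ℂ × ℂ) (q : PT) :
    AnalyticAt ℂ (fun q : PT => (HS q.1).Y2 c q.2) q := by
  have h1 : AnalyticAt ℂ (fun q : PT => ((HS q.1).Z c q.2).2) q :=
    analyticAt_snd.comp (Z_analytic c q)
  exact ((ContinuousMap.evalCLM ℂ (1 : unitInterval) : R →L[ℂ] ℂ).analyticAt _).comp h1

variable (p : ℂ × ℂ × ℂ)

lemma Y1_diff (c : ℂ × ℂ) : Differentiable ℂ ((HS p).Y1 c) := by
  intro t
  have h : AnalyticAt ℂ (fun t : ℂ => (HS p).Y1 c t) t :=
    AnalyticAt.comp (f := fun t : ℂ => ((p, t) : PT)) (Y1_analytic c (p, t)) (by fun_prop)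
  exact h.differentiableAt

lemma Y2_diff (c : ℂ × ℂ) : Differentiable ℂ ((HS p).Y2 c) := by
  intro t
  have h : AnalyticAt ℂ (fun t : ℂ => (HS p).Y2 c t) t :=
    AnalyticAt.comp (f := fun t : ℂ => ((p, t) : PT)) (Y2_analytic c (p, t)) (by fun_prop)
  exact h.differentiableAt

lemma Y1_hd (c : ℂ × ℂ) (t : ℂ) :
    HasDerivAt ((HS p).Y1 c) (p.2.2 * exp t * (HS p).Y1 c t + (HS p).Y2 c t) t := by
  have := (HS p).Y1_deriv (Y1_diff p c) (Y2_diff p c) t
  simpa [HS] using this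

lemma Y2_hd (c : ℂ × ℂ) (t : ℂ) :
    HasDerivAt ((HS p).Y2 c) (-(p.2.1 + p.2.2 ^ 2) * (HS p).Y1 c t
      + (p.1 - p.2.2 * exp (-t)) * (HS p).Y2 c t) t := by
  have := (HS p).Y2_deriv (Y1_diff p c) (Y2_diff p c) t
  simpa [HS] using this

lemma HS_unique {y1 y2 : ℂ → ℂ}
    (hy1 : ∀ t, HasDerivAt y1 (p.2.2 * exp t * y1 t + y2 t) t)
    (hy2 : ∀ t, HasDerivAt y2 (-(p.2.1 + p.2.2 ^ 2) * y1 t + (p.1 - p.2.2 * exp (-t)) * y2 t) t)
    (t : ℂ) : y1 t = (HS p).Y1 (y1 0, y2 0) t ∧ y2 t = (HS p).Y2 (y1 0, y2 0) t := by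
  apply (HS p).unique
  · intro t; simpa [HS] using hy1 t
  · intro t; simpa [HS] using hy2 t

/-- Linearity in the initial data. -/
lemma Y_lin (c : ℂ × ℂ) (t : ℂ) :
    (HS p).Y1 c t = c.1 * (HS p).Y1 (1, 0) t + c.2 * (HS p).Y1 (0, 1) t ∧
    (HS p).Y2 c t = c.1 * (HS p).Y2 (1, 0) t + c.2 * (HS p).Y2 (0, 1) t := by
  have h := HS_unique p
    (y1 := fun t => c.1 * (HS p).Y1 (1, 0) t + c.2 * (HS p).Y1 (0, 1) t)
    (y2 := fun t => c.1 * (HS p).Y2 (1, 0) t + c.2 * (HS p).Y2 (0, 1) t)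
    (fun t => by
      refine (((Y1_hd p (1, 0) t).const_mul c.1).add
        ((Y1_hd p (0, 1) t).const_mul c.2)).congr_deriv ?_
      ring)
    (fun t => by
      refine (((Y2_hd p (1, 0) t).const_mul c.1).add
        ((Y2_hd p (0, 1) t).const_mul c.2)).congr_deriv ?_
      ring) t
  have e1 : c.1 * (HS p).Y1 (1, 0) 0 + c.2 * (HS p).Y1 (0, 1) 0 = c.1 := by
    rw [(HS p).Y1_zero, (HS p).Y1_zero]; simp
  have e2 : c.1 * (HS p).Y2 (1, 0) 0 + c.2 * (HS p).Y2 (0, 1) 0 = c.2 := by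
    rw [(HS p).Y2_zero, (HS p).Y2_zero]; simp
  simp only [e1, e2] at h
  exact ⟨h.1.symm, h.2.symm⟩

/-- Wronskian. -/
lemma wronskian (t : ℂ) :
    (HS p).Y1 (1, 0) t * (HS p).Y2 (0, 1) t - (HS p).Y1 (0, 1) t * (HS p).Y2 (1, 0) t
      = exp (p.1 * t + p.2.2 * (exp t + exp (-t)) - 2 * p.2.2) := by
  set W : ℂ → ℂ := fun t => ((HS p).Y1 (1, 0) t * (HS p).Y2 (0, 1) t -
    (HS p).Y1 (0, 1) t * (HS p).Y2 (1, 0) t) *
      exp (-(p.1 * t + p.2.2 * (exp t + exp (-t)) - 2 * p.2.2)) with hW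
  have hd : ∀ t, HasDerivAt W 0 t := by
    intro t
    have he : HasDerivAt (fun t => exp (-(p.1 * t + p.2.2 * (exp t + exp (-t)) - 2 * p.2.2)))
        (exp (-(p.1 * t + p.2.2 * (exp t + exp (-t)) - 2 * p.2.2)) *
          (-(p.1 + p.2.2 * (exp t - exp (-t))))) t := by
      have h1 : HasDerivAt (fun t : ℂ => exp (-t)) (-exp (-t)) t := by
        simpa using (hasDerivAt_neg t).cexp
      have h2 : HasDerivAt (fun t : ℂ => -(p.1 * t + p.2.2 * (exp t + exp (-t)) - 2 * p.2.2))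
          (-(p.1 * 1 + p.2.2 * (exp t + -exp (-t)))) t :=
        ((((hasDerivAt_id t).const_mul p.1).add
          (((Complex.hasDerivAt_exp t).add h1).const_mul p.2.2)).sub_const _).neg
      refine h2.cexp.congr_deriv ?_
      ring
    have h3 := ((((Y1_hd p (1, 0) t).mul (Y2_hd p (0, 1) t)).sub
      ((Y1_hd p (0, 1) t).mul (Y2_hd p (1, 0) t))).mul he)
    refine h3.congr_deriv ?_
    simp only [Pi.mul_apply, Pi.sub_apply]
    ring
  have hconst : W t = W 0 := by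
    apply is_const_of_deriv_eq_zero (fun t => (hd t).differentiableAt) (fun t => (hd t).deriv)
  have h0 : W 0 = 1 := by
    rw [hW]
    simp only [(HS p).Y1_zero, (HS p).Y2_zero]
    simp
    ring_nf
    simp
  have hne : exp (-(p.1 * t + p.2.2 * (exp t + exp (-t)) - 2 * p.2.2)) ≠ 0 := exp_ne_zero _
  rw [h0, hW] at hconst
  simp only at hconst
  have hmul : exp (p.1 * t + p.2.2 * (exp t + exp (-t)) - 2 * p.2.2) *
      exp (-(p.1 * t + p.2.2 * (exp t + exp (-t)) - 2 * p.2.2)) = 1 := by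
    rw [← exp_add]; simp
  exact mul_right_cancel₀ hne (hconst.trans hmul.symm)

noncomputable def n11 : ℂ := (HS p).Y1 (1, 0) (2 * Real.pi * I)
noncomputable def n12 : ℂ := (HS p).Y1 (0, 1) (2 * Real.pi * I)
noncomputable def n21 : ℂ := (HS p).Y2 (1, 0) (2 * Real.pi * I)
noncomputable def n22 : ℂ := (HS p).Y2 (0, 1) (2 * Real.pi * I)

lemma det_eq : n11 p * n22 p - n12 p * n21 p = exp (2 * Real.pi * I * p.1) := by
  have h := wronskian p (2 * Real.pi * I)
  rw [n11, n22, n12, n21, h]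
  have h1 : exp (2 * Real.pi * I : ℂ) = 1 := exp_two_pi_mul_I
  have h2 : exp (-(2 * Real.pi * I) : ℂ) = 1 := by rw [exp_neg, h1, inv_one]
  rw [h1, h2]
  congr 1
  ring

/-- `F(p) = (tr N)² - 4 e^{2πil}`. -/
noncomputable def FF : ℂ := (n11 p + n22 p) ^ 2 - 4 * exp (2 * Real.pi * I * p.1)

lemma n_analytic (c : ℂ × ℂ) (T : ℂ) : AnalyticAt ℂ (fun p => (HS p).Y1 c T) p ∧
    AnalyticAt ℂ (fun p => (HS p).Y2 c T) p := by
  constructor
  · exact AnalyticAt.comp (f := fun p : ℂ × ℂ × ℂ => ((p, T) : PT)) (Y1_analytic c (p, T))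
      (by fun_prop)
  · exact AnalyticAt.comp (f := fun p : ℂ × ℂ × ℂ => ((p, T) : PT)) (Y2_analytic c (p, T))
      (by fun_prop)

lemma FF_analytic : AnalyticAt ℂ FF p := by
  have h1 : AnalyticAt ℂ n11 p := (n_analytic p (1, 0) (2 * Real.pi * I)).1
  have h2 : AnalyticAt ℂ n22 p := (n_analytic p (0, 1) (2 * Real.pi * I)).2
  have h3 : AnalyticAt ℂ (fun p : ℂ × ℂ × ℂ => 4 * exp (2 * Real.pi * I * p.1)) p :=
    analyticAt_const.mul (AnalyticAt.cexp (analyticAt_const.mul analyticAt_fst))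
  exact ((h1.add h2).pow 2).sub h3

end Pool.Agent.N261.HE
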