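import Pool.Agent.N261.HE.Defs
import Pool.Agent.N261.HE.Heun

/-!
`IsSolution` is equivalent to the lifted equation and to the first order system.
-/

open Complex Filter Topology

namespace Pool.Agent.N261.HE

/-- The lifted equation. -/
def LiftEq (l lam mu : ℂ) (y : ℂ → ℂ) : Prop :=
  Differentiable ℂ y ∧ ∀ t, deriv (deriv y) t - (l + mu * (exp t - exp (-t))) * deriv y t
    + (lam + mu * (l - 1) * exp t) * y t = 0

lemma liftEq_of_isSolution {l lam mu : ℂ} {y : ℂ → ℂ} (h : IsSolution l lam mu y) :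
    LiftEq l lam mu y := by
  have key : ∀ t, DifferentiableAt ℂ y t ∧
      deriv (deriv y) t - (l + mu * (exp t - exp (-t))) * deriv y t
        + (lam + mu * (l - 1) * exp t) * y t = 0 := by
    intro t
    obtain ⟨U, E, hU, htU, ⟨hE, hode⟩, hy⟩ := h t
    have hexpU : ∀ᶠ s in 𝓝 t, exp s ∈ U :=
      Complex.continuous_exp.continuousAt.eventually (hU.mem_nhds htU)
    have hd : ∀ᶠ s in 𝓝 t, HasDerivAt y (deriv E (exp s) * exp s) s := by
      filter_upwards [hexpU, hy.eventually_nhds] with s hs hys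
      have h1 : HasDerivAt E (deriv E (exp s)) (exp s) :=
        ((hE _ hs).differentiableAt (hU.mem_nhds hs)).hasDerivAt
      exact (h1.comp s (Complex.hasDerivAt_exp s)).congr_of_eventuallyEq hys
    have hd1 := hd.self_of_nhds
    have hd2 : deriv y =ᶠ[𝓝 t] fun s => deriv E (exp s) * exp s := by
      filter_upwards [hd] with s hs using hs.deriv
    have hE' : DifferentiableOn ℂ (deriv E) U := hE.deriv hU
    have h2 : HasDerivAt (fun s => deriv E (exp s) * exp s)
        (deriv (deriv E) (exp t) * exp t * exp t + deriv E (exp t) * exp t) t := by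
      have h1 : HasDerivAt (deriv E) (deriv (deriv E) (exp t)) (exp t) :=
        ((hE' _ htU).differentiableAt (hU.mem_nhds htU)).hasDerivAt
      exact (h1.comp t (Complex.hasDerivAt_exp t)).mul (Complex.hasDerivAt_exp t)
    have h3 : deriv (deriv y) t = deriv (deriv E) (exp t) * exp t * exp t
        + deriv E (exp t) * exp t := by
      rw [hd2.deriv_eq, h2.deriv]
    refine ⟨hd1.differentiableAt, ?_⟩
    rw [h3, hd1.deriv, hy.self_of_nhds]
    have h4 := hode _ htU
    have h5 : exp t * exp (-t) = 1 := by rw [← exp_add]; simp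
    linear_combination h4 + mu * deriv E (exp t) * h5
  exact ⟨fun t => (key t).1, fun t => (key t).2⟩

lemma isSolution_of_liftEq {l lam mu : ℂ} {y : ℂ → ℂ} (h : LiftEq l lam mu y) :
    IsSolution l lam mu y := by
  obtain ⟨hy, hode⟩ := h
  have hy' : Differentiable ℂ (deriv y) := by
    have := (hy.differentiableOn (s := Set.univ)).deriv isOpen_univ
    exact differentiableOn_univ.1 this
  intro t
  set z₀ := exp t with hz₀
  have hz₀0 : z₀ ≠ 0 := exp_ne_zero t
  set U : Set ℂ := {z | z / z₀ ∈ slitPlane} with hU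
  have hUo : IsOpen U := isOpen_slitPlane.preimage (by fun_prop)
  set g : ℂ → ℂ := fun z => t + log (z / z₀) with hg
  have hU0 : ∀ z ∈ U, z ≠ 0 := by
    intro z hz h0
    rw [hU, Set.mem_ofPred_eq, h0, zero_div] at hz
    exact zero_notMem_slitPlane hz
  have hgd : ∀ z ∈ U, HasDerivAt g z⁻¹ z := by
    intro z hz
    have h1 : HasDerivAt (fun z : ℂ => z / z₀) (1 / z₀) z := (hasDerivAt_id z).div_const z₀
    have h2 := (h1.clog hz).const_add t
    refine h2.congr_deriv ?_
    have := hU0 z hz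
    field_simp
  have hexpg : ∀ z ∈ U, exp (g z) = z := by
    intro z hz
    rw [hg]; simp only
    rw [exp_add, exp_log (div_ne_zero (hU0 z hz) hz₀0), ← hz₀]
    field_simp
  set E : ℂ → ℂ := fun z => y (g z) with hE
  have hEd : ∀ z ∈ U, HasDerivAt E (deriv y (g z) * z⁻¹) z := fun z hz =>
    (hy (g z)).hasDerivAt.comp z (hgd z hz)
  have hEd2 : ∀ z ∈ U, deriv (deriv E) z =
      (deriv (deriv y) (g z) * z⁻¹) * z⁻¹ - deriv y (g z) * (z ^ 2)⁻¹ := by
    intro z hz
    have h1 : deriv E =ᶠ[𝓝 z] fun z => deriv y (g z) * z⁻¹ := by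
      filter_upwards [hUo.mem_nhds hz] with w hw using (hEd w hw).deriv
    rw [h1.deriv_eq]
    have h2 : HasDerivAt (fun z => deriv y (g z)) (deriv (deriv y) (g z) * z⁻¹) z :=
      (hy' (g z)).hasDerivAt.comp z (hgd z hz)
    have h3 : HasDerivAt (fun z => deriv y (g z) * z⁻¹)
        ((deriv (deriv y) (g z) * z⁻¹) * z⁻¹ + deriv y (g z) * (-(z ^ 2)⁻¹)) z :=
      h2.mul (hasDerivAt_inv (hU0 z hz))
    rw [h3.deriv]; ring
  refine ⟨U, E, hUo, ?_, ⟨fun z hz => (hEd z hz).differentiableAt.differentiableWithinAt, ?_⟩, ?_⟩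
  · show z₀ / z₀ ∈ slitPlane
    rw [div_self hz₀0]; exact one_mem_slitPlane
  · intro z hz
    rw [hEd2 z hz, (hEd z hz).deriv]
    have h1 := hode (g z)
    rw [exp_neg, hexpg z hz] at h1
    have h2 := hU0 z hz
    simp only [hE]
    field_simp
    field_simp at h1
    linear_combination h1
  · have h1 : ∀ᶠ s in 𝓝 t, |(s - t).im| < Real.pi := by
      have hc : ContinuousAt (fun s : ℂ => |(s - t).im|) t := by fun_prop
      apply hc.eventually (gt_mem_nhds _)
      simpa using Real.pi_pos
    filter_upwards [h1] with s hs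
    have h2 := abs_lt.1 hs
    show y s = y (t + log (exp s / z₀))
    rw [hz₀, ← exp_sub, log_exp h2.1 h2.2.le]
    congr 1; ring

lemma isSolution_iff {l lam mu : ℂ} {y : ℂ → ℂ} :
    IsSolution l lam mu y ↔ LiftEq l lam mu y :=
  ⟨liftEq_of_isSolution, isSolution_of_liftEq⟩

lemma LiftEq.diff' {l lam mu : ℂ} {y : ℂ → ℂ} (h : LiftEq l lam mu y) :
    Differentiable ℂ (deriv y) := by
  have := (h.1.differentiableOn (s := Set.univ)).deriv isOpen_univ
  exact differentiableOn_univ.1 this

lemma isSolution_zero (l lam mu : ℂ) : IsSolution l lam mu 0 := by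
  rw [isSolution_iff]
  refine ⟨differentiable_const 0, fun t => ?_⟩
  have h1 : deriv (0 : ℂ → ℂ) = 0 := by funext t; exact deriv_const t 0
  rw [h1, h1]
  simp

lemma IsSolution.add {l lam mu : ℂ} {y y' : ℂ → ℂ} (h : IsSolution l lam mu y)
    (h' : IsSolution l lam mu y') : IsSolution l lam mu (y + y') := by
  rw [isSolution_iff] at *
  refine ⟨h.1.add h'.1, fun t => ?_⟩
  have h1 : deriv (y + y') = deriv y + deriv y' := by
    funext t; exact deriv_add (h.1 t) (h'.1 t)
  have h2 : deriv (deriv y + deriv y') t = deriv (deriv y) t + deriv (deriv y') t :=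
    deriv_add (h.diff' t) (h'.diff' t)
  rw [h1, h2, Pi.add_apply, Pi.add_apply]
  linear_combination h.2 t + h'.2 t

lemma IsSolution.smul {l lam mu : ℂ} (c : ℂ) {y : ℂ → ℂ} (h : IsSolution l lam mu y) :
    IsSolution l lam mu (c • y) := by
  rw [isSolution_iff] at *
  refine ⟨h.1.const_smul c, fun t => ?_⟩
  have h1 : deriv (c • y) = c • deriv y := by
    funext t; exact deriv_const_smul c (h.1 t)
  have h2 : deriv (c • deriv y) t = c • deriv (deriv y) t := deriv_const_smul c (h.diff' t)
  rw [h1, h2]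
  simp only [Pi.smul_apply, smul_eq_mul]
  linear_combination c * h.2 t

lemma exp_shift (t : ℂ) : exp (t + 2 * Real.pi * I) = exp t := by
  rw [exp_add, exp_two_pi_mul_I, mul_one]

lemma IsSolution.shift {l lam mu : ℂ} {y : ℂ → ℂ} (h : IsSolution l lam mu y) :
    IsSolution l lam mu (fun t => y (t + 2 * Real.pi * I)) := by
  intro t
  obtain ⟨U, E, hU, ht, hE, hy⟩ := h (t + 2 * Real.pi * I)
  refine ⟨U, E, hU, by rwa [exp_shift] at ht, hE, ?_⟩
  have hc : ContinuousAt (fun s : ℂ => s + 2 * Real.pi * I) t := by fun_prop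
  filter_upwards [hc.eventually hy] with s hs
  rw [hs, exp_shift]

end Pool.Agent.N261.HE
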