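import Mathlib

/-!
Local lemma: if `f, g` are analytic near `(s₀,l₀)`, `f(s₀,·)` is not locally zero, and for
frequently many `s` near `s₀` the zeros of `f(s,·)` near `l₀` are zeros of `g(s,·)`, then all zeros
of `f` near `(s₀,l₀)` are zeros of `g`.
-/

open Complex Filter Topology Set Metric

namespace Pool.Agent.N261.HE

/-- Partial derivative in the second variable. -/
noncomputable def D2 (f : ℂ × ℂ → ℂ) : ℂ × ℂ → ℂ := fun p => fderiv ℂ f p (0, 1)

lemma D2_analyticAt {f : ℂ × ℂ → ℂ} {p : ℂ × ℂ} (hf : AnalyticAt ℂ f p) :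
    AnalyticAt ℂ (D2 f) p := by
  have h := hf.fderiv
  exact ((ContinuousLinearMap.apply ℂ ℂ ((0, 1) : ℂ × ℂ)).analyticAt _).comp h

lemma iter_analyticAt {f : ℂ × ℂ → ℂ} {p : ℂ × ℂ} (hf : AnalyticAt ℂ f p) (m : ℕ) :
    AnalyticAt ℂ (D2^[m] f) p := by
  induction m with
  | zero => simpa using hf
  | succ n ih => rw [Function.iterate_succ_apply']; exact D2_analyticAt ih

lemma deriv_snd {f : ℂ × ℂ → ℂ} {s l : ℂ} (hf : AnalyticAt ℂ f (s, l)) :
    deriv (fun l' => f (s, l')) l = D2 f (s, l) := by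
  have h1 : HasFDerivAt f (fderiv ℂ f (s, l)) (s, l) := hf.differentiableAt.hasFDerivAt
  have h2 : HasDerivAt (fun l' : ℂ => ((s, l') : ℂ × ℂ)) ((0, 1) : ℂ × ℂ) l :=
    (hasDerivAt_const l s).prodMk (hasDerivAt_id l)
  exact (h1.comp_hasDerivAt l h2).deriv

lemma iteratedDeriv_snd {f : ℂ × ℂ → ℂ} {U : Set (ℂ × ℂ)} (hU : IsOpen U)
    (hf : AnalyticOnNhd ℂ f U) (m : ℕ) :
    ∀ s l, (s, l) ∈ U → iteratedDeriv m (fun l' => f (s, l')) l = (D2^[m] f) (s, l) := by
  induction m with
  | zero => intro s l _; simp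
  | succ n ih =>
    intro s l hsl
    rw [iteratedDeriv_succ, Function.iterate_succ_apply',
      ← deriv_snd (iter_analyticAt (hf _ hsl) n)]
    apply Filter.EventuallyEq.deriv_eq
    have : ∀ᶠ l' in 𝓝 l, (s, l') ∈ U :=
      (Continuous.continuousAt (by fun_prop : Continuous fun l' : ℂ => (s, l'))).eventually
        (hU.mem_nhds hsl)
    filter_upwards [this] with l' hl' using ih s l' hl'

lemma order_le {h : ℂ → ℂ} {z : ℂ} {m : ℕ} (hh : AnalyticAt ℂ h z)
    (hm : iteratedDeriv m h z ≠ 0) : analyticOrderAt h z ≤ m := by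
  by_contra hlt
  push Not at hlt
  have h1 : ((m + 1 : ℕ) : ℕ∞) ≤ analyticOrderAt h z := by
    have := Order.add_one_le_of_lt hlt
    simpa using this
  rw [natCast_le_analyticOrderAt_iff_iteratedDeriv_eq_zero hh] at h1
  exact hm (h1 m (Nat.lt_succ_self m))

lemma quot_order_nonneg {f g M : ℂ → ℂ} {z : ℂ} {m : ℕ} (hf : AnalyticAt ℂ f z)
    (hfm : analyticOrderAt f z ≤ m) (hg : AnalyticAt ℂ g z) (hM : AnalyticAt ℂ M z)
    (h0 : f z = 0 → g z = 0) :
    0 ≤ meromorphicOrderAt (fun w => g w ^ m * M w / f w) z := by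
  by_cases hz : f z = 0
  · have hgz := h0 hz
    have hg1 : ((1 : ℕ) : ℕ∞) ≤ analyticOrderAt g z := by
      have : analyticOrderAt g z ≠ 0 := by rw [hg.analyticOrderAt_ne_zero]; exact hgz
      simpa using Order.one_le_iff_pos.mpr (pos_iff_ne_zero.mpr this)
    obtain ⟨k, hk, hgk⟩ := (natCast_le_analyticOrderAt hg).1 hg1
    have hftop : analyticOrderAt f z ≠ ⊤ := fun h => by
      rw [h] at hfm; exact absurd (top_le_iff.1 hfm) (ENat.natCast_ne_top m)
    obtain ⟨h, hh, hh0, hfh⟩ := (hf.analyticOrderAt_ne_top).1 hftop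
    set n := analyticOrderNatAt f z with hn
    have hnm : n ≤ m := by
      have : ((n : ℕ) : ℕ∞) ≤ m := by
        rw [hn, Nat.cast_analyticOrderNatAt hftop]; exact hfm
      exact_mod_cast this
    have han : AnalyticAt ℂ (fun w => (w - z) ^ (m - n) * k w ^ m * M w / h w) z := by
      have : AnalyticAt ℂ (fun w => (w - z) ^ (m - n) * k w ^ m * M w) z := by fun_prop
      exact this.div hh hh0
    rw [meromorphicOrderAt_congr (f₂ := fun w => (w - z) ^ (m - n) * k w ^ m * M w / h w)]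
    · exact han.meromorphicOrderAt_nonneg
    · have hne : ∀ᶠ w in 𝓝[≠] z, w ≠ z := self_mem_nhdsWithin
      have hh0' : ∀ᶠ w in 𝓝[≠] z, h w ≠ 0 :=
        (hh.continuousAt.eventually_ne hh0).filter_mono nhdsWithin_le_nhds
      filter_upwards [hne, hh0', hgk.filter_mono nhdsWithin_le_nhds,
        hfh.filter_mono nhdsWithin_le_nhds] with w h1 h2 h3 h4
      have h1' : w - z ≠ 0 := sub_ne_zero.2 h1
      rw [h3, h4]
      simp only [pow_one, smul_eq_mul]
      rw [mul_pow]
      have : (w - z) ^ m = (w - z) ^ (m - n) * (w - z) ^ n := by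
        rw [← pow_add, Nat.sub_add_cancel hnm]
      rw [this]
      field_simp
  · have : AnalyticAt ℂ (fun w => g w ^ m * M w / f w) z := by
      have h1 : AnalyticAt ℂ (fun w => g w ^ m * M w) z := by fun_prop
      exact h1.div hf hz
    exact this.meromorphicOrderAt_nonneg

/-- The circle integral of `g^m M / f` vanishes if all zeros of `f` in the disc have order `≤ m`
and are zeros of `g`. -/
lemma circle_zero {f g M : ℂ → ℂ} {c : ℂ} {r : ℝ} (hr : 0 < r) {m : ℕ}
    (hf : AnalyticOnNhd ℂ f (closedBall c r)) (hg : AnalyticOnNhd ℂ g (closedBall c r))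
    (hM : AnalyticOnNhd ℂ M (closedBall c r))
    (hfm : ∀ z ∈ closedBall c r, analyticOrderAt f z ≤ m)
    (h0 : ∀ z ∈ closedBall c r, f z = 0 → g z = 0)
    (hs : ∀ z ∈ sphere c r, f z ≠ 0) :
    (∮ z in C(c, r), g z ^ m * M z / f z) = 0 := by
  set φ : ℂ → ℂ := fun z => g z ^ m * M z / f z with hφ
  set ψ := toMeromorphicNFOn φ (closedBall c r) with hψ
  have hmer : MeromorphicOn φ (closedBall c r) := by
    intro z hz
    have h1 : AnalyticAt ℂ (fun w => g w ^ m * M w) z := by
      have := hg z hz; have := hM z hz; fun_prop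
    exact h1.meromorphicAt.div (hf z hz).meromorphicAt
  have hnf : MeromorphicNFOn ψ (closedBall c r) := meromorphicNFOn_toMeromorphicNFOn _ _
  have hana : AnalyticOnNhd ℂ ψ (closedBall c r) := by
    intro z hz
    rw [← (hnf hz).meromorphicOrderAt_nonneg_iff_analyticAt]
    rw [hψ, meromorphicOrderAt_toMeromorphicNFOn hmer hz]
    exact quot_order_nonneg (hf z hz) (hfm z hz) (hg z hz) (hM z hz) (h0 z hz)
  have heq : ∀ z ∈ sphere c r, φ z = ψ z := by
    intro z hz
    have hz' : z ∈ closedBall c r := sphere_subset_closedBall hz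
    have hφa : AnalyticAt ℂ φ z := by
      have h1 : AnalyticAt ℂ (fun w => g w ^ m * M w) z := by
        have := hg z hz'; have := hM z hz'; fun_prop
      exact h1.div (hf z hz') (hs z hz)
    have h2 : ψ =ᶠ[𝓝 z] toMeromorphicNFAt φ z :=
      toMeromorphicNFOn_eq_toMeromorphicNFAt_on_nhds hmer hz'
    have h3 : toMeromorphicNFAt φ z = φ := toMeromorphicNFAt_eq_self.2 hφa.meromorphicNFAt
    rw [h3] at h2
    exact h2.self_of_nhds.symm
  have h1 : (∮ z in C(c, r), φ z) = ∮ z in C(c, r), ψ z :=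
    circleIntegral.integral_congr hr.le heq
  rw [h1]
  apply Complex.circleIntegral_eq_zero_of_differentiable_on_off_countable hr.le countable_empty
  · exact hana.continuousOn
  · intro z hz
    exact (hana z (ball_subset_closedBall hz.1)).differentiableAt

end Pool.Agent.N261.HE
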