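import Pool.Agent.N261.HE.Sol

/-!
The space of solutions is two-dimensional; characteristic polynomial of the monodromy.
-/

open Complex Filter Topology Polynomial

namespace Pool.Agent.N261.HE

variable {l lam mu : ℂ}

lemma sol_lift (y : Sol l lam mu) : LiftEq l lam mu (y : ℂ → ℂ) := isSolution_iff.1 y.2

lemma sol_sys (y : Sol l lam mu) (t : ℂ) :
    HasDerivAt (y : ℂ → ℂ) (mu * exp t * (y : ℂ → ℂ) t +
      (deriv (y : ℂ → ℂ) t - mu * exp t * (y : ℂ → ℂ) t)) t := by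
  have h := ((sol_lift y).1 t).hasDerivAt
  refine h.congr_deriv ?_
  ring

lemma sol_sys2 (y : Sol l lam mu) (t : ℂ) :
    HasDerivAt (fun t => deriv (y : ℂ → ℂ) t - mu * exp t * (y : ℂ → ℂ) t)
      (-(lam + mu ^ 2) * (y : ℂ → ℂ) t + (l - mu * exp (-t)) *
      (deriv (y : ℂ → ℂ) t - mu * exp t * (y : ℂ → ℂ) t)) t := by
  have h1 := ((sol_lift y).1 t).hasDerivAt
  have h2 := ((sol_lift y).diff' t).hasDerivAt
  have h3 : HasDerivAt (fun t => deriv (y : ℂ → ℂ) t - mu * exp t * (y : ℂ → ℂ) t)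
      (deriv (deriv (y : ℂ → ℂ)) t - (mu * exp t * (y : ℂ → ℂ) t +
        mu * exp t * deriv (y : ℂ → ℂ) t)) t :=
    h2.sub (((Complex.hasDerivAt_exp t).const_mul mu).mul h1)
  refine h3.congr_deriv ?_
  have h4 := (sol_lift y).2 t
  have h5 : exp t * exp (-t) = 1 := by rw [← exp_add]; simp
  linear_combination h4 - mu ^ 2 * (y : ℂ → ℂ) t * h5

/-- The solution with initial data `c`. -/
noncomputable def ysol (l lam mu : ℂ) (c : ℂ × ℂ) : Sol l lam mu :=
  ⟨(HS (l, lam, mu)).Y1 c, by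
    show IsSolution l lam mu _
    rw [isSolution_iff]
    refine ⟨Y1_diff _ c, fun t => ?_⟩
    set p : ℂ × ℂ × ℂ := (l, lam, mu) with hp
    have hd : ∀ t, deriv ((HS p).Y1 c) t = mu * exp t * (HS p).Y1 c t + (HS p).Y2 c t :=
      fun t => (Y1_hd p c t).deriv
    have hd1 : deriv ((HS p).Y1 c) = fun t => mu * exp t * (HS p).Y1 c t + (HS p).Y2 c t :=
      funext hd
    have h2 : HasDerivAt (fun t => mu * exp t * (HS p).Y1 c t + (HS p).Y2 c t)
        ((mu * exp t * (HS p).Y1 c t + mu * exp t * (mu * exp t * (HS p).Y1 c t + (HS p).Y2 c t)) +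
          (-(lam + mu ^ 2) * (HS p).Y1 c t + (l - mu * exp (-t)) * (HS p).Y2 c t)) t :=
      (((Complex.hasDerivAt_exp t).const_mul mu).mul (Y1_hd p c t)).add (Y2_hd p c t)
    rw [hd1, h2.deriv]
    have h5 : exp t * exp (-t) = 1 := by rw [← exp_add]; simp
    linear_combination mu ^ 2 * (HS p).Y1 c t * h5⟩

lemma ysol_coe (c : ℂ × ℂ) (t : ℂ) : (ysol l lam mu c : ℂ → ℂ) t = (HS (l, lam, mu)).Y1 c t := rfl

lemma ysol_deriv (c : ℂ × ℂ) (t : ℂ) : deriv (ysol l lam mu c : ℂ → ℂ) t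
    = mu * exp t * (HS (l, lam, mu)).Y1 c t + (HS (l, lam, mu)).Y2 c t :=
  (Y1_hd (l, lam, mu) c t).deriv

/-- Evaluation of initial data. -/
noncomputable def ev (l lam mu : ℂ) : Sol l lam mu →ₗ[ℂ] (Fin 2 → ℂ) where
  toFun y := ![(y : ℂ → ℂ) 0, deriv (y : ℂ → ℂ) 0 - mu * (y : ℂ → ℂ) 0]
  map_add' y y' := by
    have h : deriv ((y + y' : Sol l lam mu) : ℂ → ℂ) 0 = deriv (y : ℂ → ℂ) 0 + deriv (y' : ℂ → ℂ) 0 :=
      deriv_add ((sol_lift y).1 0) ((sol_lift y').1 0)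
    have h2 : ((y + y' : Sol l lam mu) : ℂ → ℂ) 0 = (y : ℂ → ℂ) 0 + (y' : ℂ → ℂ) 0 := rfl
    rw [h, h2]
    ext i
    fin_cases i
    · rfl
    · simp; ring
  map_smul' c y := by
    have h : deriv ((c • y : Sol l lam mu) : ℂ → ℂ) 0 = c * deriv (y : ℂ → ℂ) 0 :=
      deriv_const_smul c ((sol_lift y).1 0)
    have h2 : ((c • y : Sol l lam mu) : ℂ → ℂ) 0 = c * (y : ℂ → ℂ) 0 := rfl
    rw [h, h2]
    ext i
    fin_cases i
    · rfl
    · simp; ring

lemma ev_apply (y : Sol l lam mu) :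
    ev l lam mu y = ![(y : ℂ → ℂ) 0, deriv (y : ℂ → ℂ) 0 - mu * (y : ℂ → ℂ) 0] := rfl

lemma sol_eq (y : Sol l lam mu) (t : ℂ) :
    (y : ℂ → ℂ) t = (HS (l, lam, mu)).Y1 ((y : ℂ → ℂ) 0, deriv (y : ℂ → ℂ) 0 - mu * (y : ℂ → ℂ) 0) t ∧
    deriv (y : ℂ → ℂ) t - mu * exp t * (y : ℂ → ℂ) t =
      (HS (l, lam, mu)).Y2 ((y : ℂ → ℂ) 0, deriv (y : ℂ → ℂ) 0 - mu * (y : ℂ → ℂ) 0) t := by
  have h := HS_unique (l, lam, mu) (sol_sys y) (sol_sys2 y) t
  simp only [exp_zero, mul_one] at h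
  exact h

lemma ev_injective : Function.Injective (ev l lam mu) := by
  rw [injective_iff_map_eq_zero]
  intro y hy
  rw [ev_apply] at hy
  have h0 : (y : ℂ → ℂ) 0 = 0 := congrFun hy 0
  have h1 : deriv (y : ℂ → ℂ) 0 - mu * (y : ℂ → ℂ) 0 = 0 := congrFun hy 1
  ext t
  have h := (sol_eq y t).1
  rw [h0, mul_zero, sub_zero] at h
  rw [h0, mul_zero, sub_zero] at h1
  rw [h1, (Y_lin (l, lam, mu) (0, 0) t).1] at h
  simpa using h

lemma ev_ysol (c : ℂ × ℂ) : ev l lam mu (ysol l lam mu c) = ![c.1, c.2] := by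
  rw [ev_apply, ysol_deriv, ysol_coe, (HS _).Y1_zero, (HS _).Y2_zero]
  simp

lemma ev_surjective : Function.Surjective (ev l lam mu) := by
  intro c
  refine ⟨ysol l lam mu (c 0, c 1), ?_⟩
  rw [ev_ysol]
  ext i
  fin_cases i <;> rfl

/-- The solution space is `ℂ²`. -/
noncomputable def evEquiv (l lam mu : ℂ) : Sol l lam mu ≃ₗ[ℂ] (Fin 2 → ℂ) :=
  LinearEquiv.ofBijective (ev l lam mu) ⟨ev_injective, ev_surjective⟩

theorem finrank_sol (l lam mu : ℂ) : Module.finrank ℂ (Sol l lam mu) = 2 := by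
  rw [(evEquiv l lam mu).finrank_eq]; simp

theorem finite_sol (l lam mu : ℂ) : Module.Finite ℂ (Sol l lam mu) :=
  Module.Finite.equiv (evEquiv l lam mu).symm

lemma ev_monodromy (y : Sol l lam mu) : ev l lam mu (monodromy l lam mu y) =
    (!![n11 (l, lam, mu), n12 (l, lam, mu); n21 (l, lam, mu), n22 (l, lam, mu)]).mulVec
      (ev l lam mu y) := by
  set T : ℂ := 2 * Real.pi * I with hT
  have hexp : exp T = 1 := exp_two_pi_mul_I
  have h := sol_eq y T
  rw [hexp, mul_one] at h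
  have hl := Y_lin (l, lam, mu) ((y : ℂ → ℂ) 0, deriv (y : ℂ → ℂ) 0 - mu * (y : ℂ → ℂ) 0) T
  have h1 : ((monodromy l lam mu y : Sol l lam mu) : ℂ → ℂ) 0 = (y : ℂ → ℂ) T := by
    show (y : ℂ → ℂ) (0 + T) = _
    rw [zero_add]
  have h2 : deriv ((monodromy l lam mu y : Sol l lam mu) : ℂ → ℂ) 0 = deriv (y : ℂ → ℂ) T := by
    show deriv (fun t => (y : ℂ → ℂ) (t + T)) 0 = _
    rw [deriv_comp_add_const, zero_add]
  rw [ev_apply, ev_apply, h1, h2]
  ext i
  fin_cases i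
  · simp [Matrix.mulVec, dotProduct, Fin.sum_univ_two]
    rw [h.1, hl.1]
    simp only [n11, n12]
    ring
  · simp [Matrix.mulVec, dotProduct, Fin.sum_univ_two]
    rw [h.2, hl.2]
    simp only [n21, n22]
    ring

theorem charpoly_monodromy (l lam mu : ℂ) [Module.Finite ℂ (Sol l lam mu)] :
    (monodromy l lam mu).charpoly =
      X ^ 2 - C (n11 (l, lam, mu) + n22 (l, lam, mu)) * X
        + C (n11 (l, lam, mu) * n22 (l, lam, mu) - n12 (l, lam, mu) * n21 (l, lam, mu)) := by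
  set N := !![n11 (l, lam, mu), n12 (l, lam, mu); n21 (l, lam, mu), n22 (l, lam, mu)] with hN
  have h1 : (evEquiv l lam mu).conj (monodromy l lam mu) = N.mulVecLin := by
    apply LinearMap.ext
    intro c
    rw [LinearEquiv.conj_apply_apply, Matrix.mulVecLin_apply]
    have h2 := ev_monodromy ((evEquiv l lam mu).symm c)
    have h3 : ev l lam mu ((evEquiv l lam mu).symm c) = c :=
      (evEquiv l lam mu).apply_symm_apply c
    rw [h3] at h2
    exact h2
  have h2 := LinearEquiv.charpoly_conj (evEquiv l lam mu) (monodromy l lam mu)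
  rw [← h2, h1, Matrix.charpoly_mulVecLin, Matrix.charpoly_fin_two, Matrix.trace_fin_two,
    Matrix.det_fin_two]
  simp [hN]

theorem double_iff (l lam mu : ℂ) [Module.Finite ℂ (Sol l lam mu)] :
    (∃ c : ℂ, 2 ≤ (monodromy l lam mu).charpoly.rootMultiplicity c) ↔ FF (l, lam, mu) = 0 := by
  have hdet := det_eq (l, lam, mu)
  rw [charpoly_monodromy, hdet]
  set a := n11 (l, lam, mu) + n22 (l, lam, mu) with ha
  set d := exp (2 * Real.pi * I * (l, lam, mu).1) with hd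
  have hFF : FF (l, lam, mu) = a ^ 2 - 4 * d := rfl
  rw [hFF]
  have hmonic : (X ^ 2 - C a * X + C d : ℂ[X]).Monic := by monicity!
  constructor
  · rintro ⟨c, hc⟩
    rw [le_rootMultiplicity_iff hmonic.ne_zero] at hc
    have hmon2 : ((X - C c) ^ 2 : ℂ[X]).Monic := (monic_X_sub_C c).pow 2
    have hdeg : (X ^ 2 - C a * X + C d : ℂ[X]).natDegree = ((X - C c) ^ 2 : ℂ[X]).natDegree := by
      have h1 : (X ^ 2 - C a * X + C d : ℂ[X]).natDegree = 2 := by compute_degree!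
      rw [h1, (monic_X_sub_C c).natDegree_pow, natDegree_X_sub_C]
    have heq : (X ^ 2 - C a * X + C d : ℂ[X]) = (X - C c) ^ 2 :=
      (eq_of_monic_of_dvd_of_natDegree_le hmon2 hmonic hc hdeg.le)
    have e0 := congrArg (fun P : ℂ[X] => P.eval c) heq
    have e1 := congrArg (fun P : ℂ[X] => (derivative P).eval c) heq
    simp only [sq (X - C c), derivative_mul, derivative_add, derivative_sub, derivative_X_pow,
      derivative_X, derivative_C] at e1
    simp at e0 e1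
    have h1 : a = 2 * c := by linear_combination -e1
    have h2 : d = c ^ 2 := by rw [h1] at e0; linear_combination e0
    rw [h1, h2]; ring
  · intro h
    refine ⟨a / 2, ?_⟩
    rw [le_rootMultiplicity_iff hmonic.ne_zero]
    have hd' : d = (a / 2) ^ 2 := by linear_combination -h / 4
    have : (X ^ 2 - C a * X + C d : ℂ[X]) = (X - C (a / 2)) ^ 2 := by
      rw [hd']
      have h2 : (C a : ℂ[X]) = 2 * C (a / 2) := by
        rw [← map_ofNat C 2, ← C_mul]; congr 1; ring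
      rw [h2, map_pow]
      ring
    rw [this]

end Pool.Agent.N261.HE
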