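import Pool.Agent.N261.HE.Lift

/-!
The space of solutions on the universal cover and the monodromy operator.
-/

open Complex Filter Topology

namespace Pool.Agent.N261.HE

/-- The vector space of solutions (continued along all paths of `ℂ \ {0}`), as functions of
`t`, `z = exp t`. -/
def Sol (l lam mu : ℂ) : Submodule ℂ (ℂ → ℂ) where
  carrier := {y | IsSolution l lam mu y}
  add_mem' := fun h h' => h.add h'
  zero_mem' := isSolution_zero l lam mu
  smul_mem' := fun c _ h => h.smul c

/-- The monodromy operator: analytic continuation along one counterclockwise loop around `z = 0`,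
i.e. `t ↦ t + 2πi`. -/
noncomputable def monodromy (l lam mu : ℂ) : Sol l lam mu →ₗ[ℂ] Sol l lam mu where
  toFun y := ⟨fun t => (y : ℂ → ℂ) (t + 2 * Real.pi * I), IsSolution.shift y.2⟩
  map_add' _ _ := rfl
  map_smul' _ _ := rfl

end Pool.Agent.N261.HE
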