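import Pool.Agent.N261.HE.VoltAbs

/-!
The Volterra operator on `C([0,1],ℂ)²`, its quasinilpotency, and analytic dependence of the
solution of `Z = z₀ + K(a) Z` on the coefficients `a`.
-/

open Complex Filter Topology Set Metric MeasureTheory

namespace Pool.Agent.N261.HE

abbrev R := C(unitInterval, ℂ)

noncomputable def pj (u : ℝ) : unitInterval := Set.projIcc 0 1 zero_le_one u

lemma continuous_pj : Continuous pj := continuous_projIcc (h := zero_le_one)

lemma pj_val {u : ℝ} (hu : u ∈ Icc (0 : ℝ) 1) : ((pj u : unitInterval) : ℝ) = u := by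
  simp [pj, Set.projIcc_of_mem zero_le_one hu]

noncomputable def Jfun (f : R) : R where
  toFun s := ((s : ℝ) : ℂ) * ∫ u in (0 : ℝ)..1, f (s * pj u)
  continuous_toFun := by
    have h : Continuous (Function.uncurry fun (s : unitInterval) (u : ℝ) => f (s * pj u)) := by
      have := continuous_pj
      exact f.continuous.comp (continuous_fst.mul (this.comp continuous_snd))
    have h2 := intervalIntegral.continuous_parametric_intervalIntegral_of_continuous'
      (μ := volume) h 0 1
    exact (Complex.continuous_ofReal.comp continuous_subtype_val).mul h2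

lemma Jint_integrable (f : R) (s : unitInterval) :
    IntervalIntegrable (fun u : ℝ => f (s * pj u)) volume 0 1 := by
  apply Continuous.intervalIntegrable
  have := continuous_pj
  exact f.continuous.comp (continuous_const.mul this)

lemma Jfun_apply (f : R) (s : unitInterval) :
    Jfun f s = ((s : ℝ) : ℂ) * ∫ u in (0 : ℝ)..1, f (s * pj u) := rfl

/-- Pointwise bound for the Volterra operator. -/
lemma Jfun_bound {f : R} {C : ℝ} {n : ℕ} (h : ∀ s : unitInterval, ‖f s‖ ≤ C * (s : ℝ) ^ n)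
    (s : unitInterval) : ‖Jfun f s‖ ≤ C * (s : ℝ) ^ (n + 1) / (n + 1) := by
  rw [Jfun_apply, norm_mul, Complex.norm_real, Real.norm_of_nonneg s.2.1]
  have h1 : ‖∫ u in (0 : ℝ)..1, f (s * pj u)‖ ≤ ∫ u in (0 : ℝ)..1, C * (s : ℝ) ^ n * u ^ n := by
    apply intervalIntegral.norm_integral_le_of_norm_le zero_le_one
    · refine Filter.Eventually.of_forall fun u hu => ?_
      have h2 := h (s * pj u)
      have h3 : (((s * pj u : unitInterval)) : ℝ) = s * u := by
        rw [Set.Icc.coe_mul, pj_val ⟨hu.1.le, hu.2⟩]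
      rw [h3, mul_pow] at h2
      linarith
    · exact (by fun_prop : Continuous fun u : ℝ => C * (s : ℝ) ^ n * u ^ n).intervalIntegrable _ _
  have h4 : (∫ u in (0 : ℝ)..1, C * (s : ℝ) ^ n * u ^ n) = C * (s : ℝ) ^ n / (n + 1) := by
    rw [intervalIntegral.integral_const_mul, integral_pow]
    simp
    ring
  rw [h4] at h1
  calc (s : ℝ) * ‖∫ u in (0 : ℝ)..1, f (s * pj u)‖ ≤ s * (C * (s : ℝ) ^ n / (n + 1)) :=
        mul_le_mul_of_nonneg_left h1 s.2.1
    _ = C * (s : ℝ) ^ (n + 1) / (n + 1) := by ring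

/-- The Volterra operator `(J f)(s) = ∫₀ˢ f`. -/
noncomputable def J : R →L[ℂ] R :=
  LinearMap.mkContinuous
    { toFun := Jfun
      map_add' := by
        intro f g
        ext s
        simp only [Jfun_apply, ContinuousMap.add_apply]
        rw [intervalIntegral.integral_add (Jint_integrable f s) (Jint_integrable g s)]
        ring
      map_smul' := by
        intro c f
        ext s
        simp only [Jfun_apply, ContinuousMap.smul_apply, smul_eq_mul, RingHom.id_apply]
        rw [intervalIntegral.integral_const_mul]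
        ring } 1
    (by
      intro f
      rw [one_mul]
      refine (ContinuousMap.norm_le _ (norm_nonneg _)).2 fun s => ?_
      have h := Jfun_bound (f := f) (C := ‖f‖) (n := 0)
        (fun s => by simpa using f.norm_coe_le_norm s) s
      simp only [Nat.cast_zero, zero_add, pow_one, div_one] at h
      refine h.trans ?_
      have := s.2.2
      nlinarith [norm_nonneg f, s.2.1])

lemma J_apply (f : R) (s : unitInterval) :
    J f s = ((s : ℝ) : ℂ) * ∫ u in (0 : ℝ)..1, f (s * pj u) := rfl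

abbrev E2 := R × R

abbrev R4 := R × R × R × R

lemma KK_pow_bound (a : R4) {C : ℝ} (hC : 0 ≤ C)
    (h1 : ‖a.1‖ + ‖a.2.1‖ ≤ C) (h2 : ‖a.2.2.1‖ + ‖a.2.2.2‖ ≤ C) (Z : E2) (n : ℕ) :
    ∀ s : unitInterval, ‖((KK J a) ^ n) Z |>.1 s‖ ≤ (C ^ n / n.factorial * ‖Z‖) * (s : ℝ) ^ n ∧
      ‖((KK J a) ^ n) Z |>.2 s‖ ≤ (C ^ n / n.factorial * ‖Z‖) * (s : ℝ) ^ n := by
  induction n with
  | zero =>
    intro s
    simp only [pow_zero, Nat.factorial_zero, Nat.cast_one, div_one, one_mul, mul_one,
      one_apply_eq_self]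
    exact ⟨(Z.1.norm_coe_le_norm s).trans (norm_fst_le Z),
      (Z.2.norm_coe_le_norm s).trans (norm_snd_le Z)⟩
  | succ n ih =>
    intro s
    set W := ((KK J a) ^ n) Z with hW
    have hstep : ((KK J a) ^ (n + 1)) Z = KK J a W := by
      rw [pow_succ', mul_apply_eq_comp]
    set D := C ^ n / n.factorial * ‖Z‖ with hD
    have hD0 : 0 ≤ D := by positivity
    have key : ∀ (b c : R), ‖b‖ + ‖c‖ ≤ C → ∀ s : unitInterval,
        ‖(b * W.1 + c * W.2) s‖ ≤ (C * D) * (s : ℝ) ^ n := by
      intro b c hbc s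
      have e1 := (ih s).1
      have e2 := (ih s).2
      have hb := b.norm_coe_le_norm s
      have hc := c.norm_coe_le_norm s
      have hs0 : 0 ≤ D * (s : ℝ) ^ n := mul_nonneg hD0 (pow_nonneg s.2.1 n)
      calc ‖(b * W.1 + c * W.2) s‖ = ‖b s * W.1 s + c s * W.2 s‖ := rfl
        _ ≤ ‖b s * W.1 s‖ + ‖c s * W.2 s‖ := norm_add_le _ _
        _ = ‖b s‖ * ‖W.1 s‖ + ‖c s‖ * ‖W.2 s‖ := by rw [norm_mul, norm_mul]
        _ ≤ ‖b‖ * (D * (s : ℝ) ^ n) + ‖c‖ * (D * (s : ℝ) ^ n) :=
            add_le_add (mul_le_mul hb e1 (norm_nonneg _) (norm_nonneg _))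
              (mul_le_mul hc e2 (norm_nonneg _) (norm_nonneg _))
        _ = (‖b‖ + ‖c‖) * (D * (s : ℝ) ^ n) := by ring
        _ ≤ C * (D * (s : ℝ) ^ n) := mul_le_mul_of_nonneg_right hbc hs0
        _ = (C * D) * (s : ℝ) ^ n := by ring
    have hconst : C * D * (s : ℝ) ^ (n + 1) / (n + 1)
        = C ^ (n + 1) / (n + 1).factorial * ‖Z‖ * (s : ℝ) ^ (n + 1) := by
      rw [hD, Nat.factorial_succ]
      push_cast
      field_simp
      ring
    rw [hstep]
    constructor
    · have := Jfun_bound (key a.1 a.2.1 h1) s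
      rw [hconst] at this
      rw [KK_fst]
      exact this
    · have := Jfun_bound (key a.2.2.1 a.2.2.2 h2) s
      rw [hconst] at this
      rw [KK_snd]
      exact this

lemma KK_isUnit (a : R4) : IsUnit (1 - KK J a) := by
  set C := (‖a.1‖ + ‖a.2.1‖) + (‖a.2.2.1‖ + ‖a.2.2.2‖) with hC
  have hC0 : 0 ≤ C := by positivity
  have h1 : ‖a.1‖ + ‖a.2.1‖ ≤ C := by
    have := norm_nonneg a.2.2.1; have := norm_nonneg a.2.2.2; linarith
  have h2 : ‖a.2.2.1‖ + ‖a.2.2.2‖ ≤ C := by
    have := norm_nonneg a.1; have := norm_nonneg a.2.1; linarith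
  have hlim := FloorSemiring.tendsto_pow_div_factorial_atTop C
  obtain ⟨n, hn⟩ := (hlim.eventually (gt_mem_nhds (show (0 : ℝ) < 1 by norm_num))).exists
  have hnorm : ‖(KK J a) ^ n‖ < 1 := by
    refine lt_of_le_of_lt (ContinuousLinearMap.opNorm_le_bound _ (by positivity) fun Z => ?_) hn
    have hb := KK_pow_bound a hC0 h1 h2 Z n
    have hle : ∀ s : unitInterval, C ^ n / n.factorial * ‖Z‖ * (s : ℝ) ^ n
        ≤ C ^ n / n.factorial * ‖Z‖ := by
      intro s
      have : (s : ℝ) ^ n ≤ 1 := pow_le_one₀ s.2.1 s.2.2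
      have h0 : 0 ≤ C ^ n / n.factorial * ‖Z‖ := by positivity
      nlinarith
    rw [Prod.norm_def]
    refine max_le ?_ ?_
    · exact (ContinuousMap.norm_le _ (by positivity)).2 fun s => ((hb s).1).trans (hle s)
    · exact (ContinuousMap.norm_le _ (by positivity)).2 fun s => ((hb s).2).trans (hle s)
  exact isUnit_of_pow (A := E2 →L[ℂ] E2) (KK J a) n
    (isUnit_one_sub_of_norm_lt_one (R := E2 →L[ℂ] E2) hnorm)

/-- Constant vector. -/
noncomputable def cst (c : ℂ × ℂ) : E2 := (ContinuousMap.const _ c.1, ContinuousMap.const _ c.2)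

end Pool.Agent.N261.HE
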