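import Mathlib

/-!
Abstract linear algebra of a `2 × 2` Volterra operator over a commutative Banach algebra `A` with a
bounded operator `J : A → A`; analytic dependence on the coefficients.
-/

open Filter Topology

namespace Pool.Agent.N261.HE

section
variable {A : Type} [NormedCommRing A] [NormedAlgebra ℂ A]

/-- `VM a f = J (a f)`. -/
noncomputable def VM (J : A →L[ℂ] A) : A →L[ℂ] (A →L[ℂ] A) :=
  (ContinuousLinearMap.compL ℂ A A A J) ∘L (ContinuousLinearMap.mul ℂ A)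

noncomputable def blk (J : A →L[ℂ] A) (i : A →L[ℂ] (A × A)) (j : (A × A) →L[ℂ] A) :
    A →L[ℂ] ((A × A) →L[ℂ] (A × A)) :=
  (ContinuousLinearMap.compL ℂ (A × A) A (A × A) i) ∘L
    ((ContinuousLinearMap.compL ℂ (A × A) A A).flip j) ∘L (VM J)

lemma blk_apply (J : A →L[ℂ] A) (i : A →L[ℂ] (A × A)) (j : (A × A) →L[ℂ] A) (a : A)
    (Z : A × A) : blk J i j a Z = i (J (a * j Z)) := rfl

/-- The Volterra operator of a `2 × 2` system with coefficients `a`. -/
noncomputable def KK (J : A →L[ℂ] A) (a : A × A × A × A) : (A × A) →L[ℂ] (A × A) :=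
  blk J (ContinuousLinearMap.inl ℂ A A) (ContinuousLinearMap.fst ℂ A A) a.1 +
  blk J (ContinuousLinearMap.inl ℂ A A) (ContinuousLinearMap.snd ℂ A A) a.2.1 +
  blk J (ContinuousLinearMap.inr ℂ A A) (ContinuousLinearMap.fst ℂ A A) a.2.2.1 +
  blk J (ContinuousLinearMap.inr ℂ A A) (ContinuousLinearMap.snd ℂ A A) a.2.2.2

lemma KK_apply (J : A →L[ℂ] A) (a : A × A × A × A) (Z : A × A) :
    KK J a Z = (J (a.1 * Z.1) + J (a.2.1 * Z.2), J (a.2.2.1 * Z.1) + J (a.2.2.2 * Z.2)) := by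
  have h1 : blk J (ContinuousLinearMap.inl ℂ A A) (ContinuousLinearMap.fst ℂ A A) a.1 Z
      = (J (a.1 * Z.1), 0) := rfl
  have h2 : blk J (ContinuousLinearMap.inl ℂ A A) (ContinuousLinearMap.snd ℂ A A) a.2.1 Z
      = (J (a.2.1 * Z.2), 0) := rfl
  have h3 : blk J (ContinuousLinearMap.inr ℂ A A) (ContinuousLinearMap.fst ℂ A A) a.2.2.1 Z
      = (0, J (a.2.2.1 * Z.1)) := rfl
  have h4 : blk J (ContinuousLinearMap.inr ℂ A A) (ContinuousLinearMap.snd ℂ A A) a.2.2.2 Z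
      = (0, J (a.2.2.2 * Z.2)) := rfl
  unfold KK
  rw [add_apply, add_apply, add_apply,
    h1, h2, h3, h4]
  simp

lemma KK_fst (J : A →L[ℂ] A) (a : A × A × A × A) (Z : A × A) :
    (KK J a Z).1 = J (a.1 * Z.1 + a.2.1 * Z.2) := by
  rw [KK_apply, map_add]

lemma KK_snd (J : A →L[ℂ] A) (a : A × A × A × A) (Z : A × A) :
    (KK J a Z).2 = J (a.2.2.1 * Z.1 + a.2.2.2 * Z.2) := by
  rw [KK_apply, map_add]

lemma isUnit_of_pow {A : Type*} [Ring A] (x : A) (n : ℕ) (hu : IsUnit (1 - x ^ n)) :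
    IsUnit (1 - x) := by
  have hmul : (1 - x) * (∑ i ∈ Finset.range n, x ^ i) = 1 - x ^ n := mul_neg_geom_sum _ _
  have hcomm : Commute (1 - x) (∑ i ∈ Finset.range n, x ^ i) := by
    apply Commute.sum_right
    intro i _
    exact (Commute.one_left _).sub_left ((Commute.refl x).pow_right i)
  rw [← hmul] at hu
  exact (hcomm.isUnit_mul_iff.1 hu).1

lemma analyticAt_ringInverse {P A : Type*} [NormedAddCommGroup P] [NormedSpace ℂ P]
    [NormedRing A] [NormedAlgebra ℂ A] [CompleteSpace A] {f : P → A} {p : P}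
    (hf : AnalyticAt ℂ f p) (hu : IsUnit (f p)) :
    AnalyticAt ℂ (fun q => Ring.inverse (f q)) p := by
  obtain ⟨u, hu'⟩ := hu
  have h2 : AnalyticAt ℂ (Ring.inverse : A → A) (f p) := by
    rw [← hu']; exact analyticAt_inverse (𝕜 := ℂ) u
  exact h2.comp hf

lemma KK_analyticAt {P : Type*} [NormedAddCommGroup P] [NormedSpace ℂ P] (J : A →L[ℂ] A)
    {a1 a2 a3 a4 : P → A} {p : P} (h1 : AnalyticAt ℂ a1 p) (h2 : AnalyticAt ℂ a2 p)
    (h3 : AnalyticAt ℂ a3 p) (h4 : AnalyticAt ℂ a4 p) :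
    AnalyticAt ℂ (fun q => KK J (a1 q, a2 q, a3 q, a4 q)) p := by
  have k1 := (ContinuousLinearMap.analyticAt (E := A) (F := (A × A) →L[ℂ] (A × A))
    (blk J (ContinuousLinearMap.inl ℂ A A) (ContinuousLinearMap.fst ℂ A A)) (a1 p)).comp h1
  have k2 := (ContinuousLinearMap.analyticAt (E := A) (F := (A × A) →L[ℂ] (A × A))
    (blk J (ContinuousLinearMap.inl ℂ A A) (ContinuousLinearMap.snd ℂ A A)) (a2 p)).comp h2
  have k3 := (ContinuousLinearMap.analyticAt (E := A) (F := (A × A) →L[ℂ] (A × A))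
    (blk J (ContinuousLinearMap.inr ℂ A A) (ContinuousLinearMap.fst ℂ A A)) (a3 p)).comp h3
  have k4 := (ContinuousLinearMap.analyticAt (E := A) (F := (A × A) →L[ℂ] (A × A))
    (blk J (ContinuousLinearMap.inr ℂ A A) (ContinuousLinearMap.snd ℂ A A)) (a4 p)).comp h4
  exact ((k1.add k2).add k3).add k4

/-- Solution of `X = c + K(a) X`. -/
noncomputable def XX (J : A →L[ℂ] A) (c : A × A) (a : A × A × A × A) : A × A :=
  (Ring.inverse (1 - KK J a)) c

lemma XX_eq (J : A →L[ℂ] A) (c : A × A) (a : A × A × A × A) (hu : IsUnit (1 - KK J a)) :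
    XX J c a = c + KK J a (XX J c a) := by
  have h := Ring.mul_inverse_cancel _ hu
  have h2 : ((1 - KK J a) * Ring.inverse (1 - KK J a)) c = c := by rw [h]; rfl
  have h3 : XX J c a - KK J a (XX J c a) = c := h2
  exact (sub_eq_iff_eq_add.1 h3)

lemma XX_unique (J : A →L[ℂ] A) (c : A × A) (a : A × A × A × A) (hu : IsUnit (1 - KK J a))
    (Z : A × A) (hZ : Z = c + KK J a Z) : Z = XX J c a := by
  have h := Ring.inverse_mul_cancel _ hu
  have h2 : (Ring.inverse (1 - KK J a) * (1 - KK J a)) Z = Z := by rw [h]; rfl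
  have h3 : (1 - KK J a) Z = c := by
    show Z - KK J a Z = c
    rw [sub_eq_iff_eq_add]
    exact hZ
  rw [mul_apply_eq_comp, h3] at h2
  exact h2.symm

lemma XX_analytic [CompleteSpace A] {P : Type*} [NormedAddCommGroup P] [NormedSpace ℂ P]
    (J : A →L[ℂ] A) (c : A × A)
    {a1 a2 a3 a4 : P → A} {p : P} (h1 : AnalyticAt ℂ a1 p) (h2 : AnalyticAt ℂ a2 p)
    (h3 : AnalyticAt ℂ a3 p) (h4 : AnalyticAt ℂ a4 p)
    (hu : IsUnit (1 - KK J (a1 p, a2 p, a3 p, a4 p))) :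
    AnalyticAt ℂ (fun q => XX J c (a1 q, a2 q, a3 q, a4 q)) p := by
  have k1 : AnalyticAt ℂ (fun q => (1 : (A × A) →L[ℂ] (A × A)) - KK J (a1 q, a2 q, a3 q, a4 q)) p :=
    analyticAt_const.sub (KK_analyticAt J h1 h2 h3 h4)
  have k3 := analyticAt_ringInverse (A := (A × A) →L[ℂ] (A × A)) k1 hu
  exact ((ContinuousLinearMap.apply ℂ (A × A) c).analyticAt _).comp k3

end

end Pool.Agent.N261.HE
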